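import Mathlib

/-!
Integrals for the reproducing kernel of the totally real ball (Siegel coordinates).
-/

set_option autoImplicit false

open MeasureTheory Set Filter Topology Complex

namespace Pool.Agent.Y263.RB

variable {m : ℕ}

/-! ### Euler integrals (copied from `Pool.Agent.TH940.NV.Lap`) -/

lemma pow_exp_int (n : ℕ) {σ : ℝ} (hσ : 0 < σ) :
    IntegrableOn (fun x : ℝ => x ^ n * Real.exp (-(σ * x))) (Ioi 0) := by
  have h := integrableOn_rpow_mul_exp_neg_mul_rpow (p := 1) (s := n) (b := σ) (by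
    have : (0:ℝ) ≤ n := Nat.cast_nonneg n
    linarith) one_pos hσ
  refine h.congr_fun (fun x hx => ?_) measurableSet_Ioi
  simp only [Real.rpow_one, Real.rpow_natCast, neg_mul]

lemma norm_pow_cexp (n : ℕ) (s : ℂ) {x : ℝ} (hx : 0 < x) :
    ‖(x : ℂ) ^ n * Complex.exp (-(s * x))‖ = x ^ n * Real.exp (-(s.re * x)) := by
  rw [norm_mul, norm_pow, Complex.norm_real, Real.norm_eq_abs, abs_of_pos hx, Complex.norm_exp]
  simp

lemma pow_cexp_int (n : ℕ) {s : ℂ} (hs : 0 < s.re) :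
    IntegrableOn (fun x : ℝ => (x : ℂ) ^ n * Complex.exp (-(s * x))) (Ioi 0) := by
  have h := pow_exp_int n hs
  refine Integrable.mono' h (by fun_prop) ?_
  filter_upwards [ae_restrict_mem measurableSet_Ioi] with x hx
  rw [norm_pow_cexp n s hx]

lemma pow_exp_tendsto (n : ℕ) {s : ℂ} (hs : 0 < s.re) :
    Tendsto (fun x : ℝ => (x : ℂ) ^ n * Complex.exp (-(s * x))) atTop (𝓝 0) := by
  rw [tendsto_zero_iff_norm_tendsto_zero]
  have h := Real.tendsto_pow_mul_exp_neg_atTop_nhds_zero n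
  have h2 : Tendsto (fun x : ℝ => (1 / s.re ^ n) *
      ((s.re * x) ^ n * Real.exp (-(s.re * x)))) atTop (𝓝 0) := by
    have h3 := (h.comp (tendsto_id.const_mul_atTop hs)).const_mul (1 / s.re ^ n)
    simpa using h3
  refine h2.congr' ?_
  filter_upwards [eventually_gt_atTop 0] with x hx
  rw [norm_pow_cexp n s hx, mul_pow]
  have : s.re ^ n ≠ 0 := by positivity
  field_simp

/-- Euler's integral -/
lemma integral_pow_cexp (n : ℕ) {s : ℂ} (hs : 0 < s.re) :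
    ∫ x in Ioi (0:ℝ), (x : ℂ) ^ n * Complex.exp (-(s * x)) = (n.factorial : ℂ) / s ^ (n+1) := by
  have hs0 : s ≠ 0 := by
    rintro rfl
    simp at hs
  have hexp : ∀ x : ℝ, HasDerivAt (fun x : ℝ => Complex.exp (-(s * x)))
      (-s * Complex.exp (-(s * x))) x := by
    intro x
    have h1 : HasDerivAt (fun x : ℝ => -(s * (x:ℂ))) (-s) x := by
      have := ((Complex.ofRealCLM.hasDerivAt (x := x)).const_mul s).fun_neg
      simpa using this
    refine h1.cexp.congr_deriv (by ring)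
  induction n with
  | zero =>
    have h1 : ∀ x ∈ Ici (0:ℝ), HasDerivAt (fun x : ℝ => -(1/s) * Complex.exp (-(s * x)))
        ((x : ℂ) ^ 0 * Complex.exp (-(s * x))) x := by
      intro x _
      refine ((hexp x).const_mul (-(1/s))).congr_deriv ?_
      field_simp
    have h2 : Tendsto (fun x : ℝ => -(1/s) * Complex.exp (-(s * x))) atTop (𝓝 0) := by
      have := (pow_exp_tendsto 0 hs).const_mul (-(1/s))
      simpa using this
    rw [integral_Ioi_of_hasDerivAt_of_tendsto' h1 (pow_cexp_int 0 hs) h2]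
    simp
  | succ n ih =>
    have h1 : ∀ x ∈ Ici (0:ℝ), HasDerivAt (fun x : ℝ => (x:ℂ) ^ (n+1) * Complex.exp (-(s * x)))
        (((n:ℂ)+1) * ((x : ℂ) ^ n * Complex.exp (-(s * x))) -
          s * ((x : ℂ) ^ (n+1) * Complex.exp (-(s * x)))) x := by
      intro x _
      have h3 : HasDerivAt (fun x : ℝ => (x:ℂ) ^ (n+1)) (((n:ℂ)+1) * (x:ℂ) ^ n) x := by
        have := (Complex.ofRealCLM.hasDerivAt (x := x)).fun_pow (n+1)
        simpa using this
      refine (h3.fun_mul (hexp x)).congr_deriv ?_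
      ring
    have hi1 := pow_cexp_int n hs
    have hi2 := pow_cexp_int (n+1) hs
    have hi : IntegrableOn (fun x : ℝ => ((n:ℂ)+1) * ((x : ℂ) ^ n * Complex.exp (-(s * x))) -
        s * ((x : ℂ) ^ (n+1) * Complex.exp (-(s * x)))) (Ioi 0) :=
      (hi1.const_mul _).sub (hi2.const_mul _)
    have h2 := integral_Ioi_of_hasDerivAt_of_tendsto' h1 hi (pow_exp_tendsto (n+1) hs)
    rw [integral_sub (hi1.const_mul _) (hi2.const_mul _), integral_const_mul,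
      integral_const_mul, ih] at h2
    have h4 : s * ∫ x in Ioi (0:ℝ), (x : ℂ) ^ (n+1) * Complex.exp (-(s * x)) =
        ((n:ℂ)+1) * ((n.factorial : ℂ) / s ^ (n+1)) := by
      have h5 : (0 : ℂ) - ((0:ℝ):ℂ) ^ (n+1) * Complex.exp (-(s * ((0:ℝ):ℂ))) = 0 := by simp
      rw [h5] at h2
      linear_combination -h2
    have h6 : ∫ x in Ioi (0:ℝ), (x : ℂ) ^ (n+1) * Complex.exp (-(s * x)) =
        s⁻¹ * (((n:ℂ)+1) * ((n.factorial : ℂ) / s ^ (n+1))) := by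
      rw [← h4]; field_simp
    rw [h6, Nat.factorial_succ]
    push_cast
    field_simp
    ring

/-! ### Gaussian integrals -/

theorem gauss_rw (r : ℝ) (y : Fin m → ℂ) (s : Fin m → ℝ) :
    cexp (-(r * ∑ i, (y i - s i) ^ 2)) = cexp (-(r * ∑ i, y i ^ 2)) *
      cexp (-(r:ℂ) * ∑ i, (s i : ℂ) ^ 2 + ∑ i, (2 * r * y i) * s i) := by
  rw [← Complex.exp_add]
  congr 1
  simp only [Finset.mul_sum, ← Finset.sum_neg_distrib, ← Finset.sum_add_distrib]
  refine Finset.sum_congr rfl fun i _ => ?_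
  ring

theorem gauss_int {r : ℝ} (hr : 0 < r) (y : Fin m → ℂ) :
    Integrable (fun s : Fin m → ℝ => cexp (-(r * ∑ i, (y i - s i) ^ 2))) := by
  have h := GaussianFourier.integrable_cexp_neg_mul_sum_add (b := (r:ℂ)) (by simpa using hr)
    (fun i => 2 * r * y i)
  refine (h.const_mul (cexp (-(r * ∑ i, y i ^ 2)))).congr (Eventually.of_forall fun s => ?_)
  exact (gauss_rw r y s).symm

theorem gauss_eq {r : ℝ} (hr : 0 < r) (y : Fin m → ℂ) :
    ∫ s : Fin m → ℝ, cexp (-(r * ∑ i, (y i - s i) ^ 2)) =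
      (((Real.pi / r) ^ ((m : ℝ) / 2) : ℝ) : ℂ) := by
  have h := GaussianFourier.integral_cexp_neg_mul_sum_add (b := (r:ℂ)) (by simpa using hr)
    (fun i => 2 * r * y i)
  simp_rw [gauss_rw r y]
  have hr0 : (r:ℂ) ≠ 0 := by exact_mod_cast hr.ne'
  rw [integral_const_mul, h]
  have h2 : (∑ i, (2 * r * y i) ^ 2) / (4 * r) = r * ∑ i, y i ^ 2 := by
    rw [Finset.sum_div, Finset.mul_sum]
    refine Finset.sum_congr rfl fun i _ => ?_
    field_simp
    ring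
  rw [h2, mul_left_comm, ← Complex.exp_add, neg_add_cancel, Complex.exp_zero, mul_one,
    Fintype.card_fin, Complex.ofReal_cpow (by positivity)]
  push_cast
  rfl

/-! ### the kernel integral -/

/-- parameters: points `(s, t)` -/
abbrev XX (m : ℕ) := (Fin m → ℝ) × ℝ

/-- the measure `ds dt`, `t > 0` -/
noncomputable def mu (m : ℕ) : Measure (XX m) :=
  (volume : Measure (Fin m → ℝ)).prod (volume.restrict (Ioi 0))

instance : SFinite (mu m) := by unfold mu; infer_instance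

theorem mu_pos : ∀ᵐ x ∂(mu m), 0 < x.2 := by
  unfold mu
  have h : ∀ᵐ t : ℝ ∂(volume.restrict (Ioi (0:ℝ))), 0 < t := by
    filter_upwards [ae_restrict_mem measurableSet_Ioi] with x hx using hx
  exact (Measure.quasiMeasurePreserving_snd (μ := (volume : Measure (Fin m → ℝ)))
    (ν := volume.restrict (Ioi (0:ℝ)))).ae h

/-- the denominator -/
noncomputable def Ph (h : ℂ) (y : Fin m → ℂ) (x : XX m) : ℂ :=
  h + x.2 + ∑ i, (y i - x.1 i) ^ 2

theorem Ph_re (h : ℂ) (y : Fin m → ℂ) (x : XX m) :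
    (Ph h y x).re = h.re + x.2 + ∑ i, (((y i).re - x.1 i) ^ 2 - (y i).im ^ 2) := by
  unfold Ph
  simp only [Complex.add_re, Complex.ofReal_re, Complex.re_sum]
  congr 1
  refine Finset.sum_congr rfl fun i _ => ?_
  simp [pow_two, Complex.mul_re]

theorem Ph_re_pos {h : ℂ} {y : Fin m → ℂ} (hy : ∑ i, (y i).im ^ 2 < h.re) {x : XX m}
    (hx : 0 < x.2) : 0 < (Ph h y x).re := by
  rw [Ph_re, Finset.sum_sub_distrib]
  have : 0 ≤ ∑ i, ((y i).re - x.1 i) ^ 2 := Finset.sum_nonneg fun i _ => sq_nonneg _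
  linarith

/-- the constant -/
noncomputable def cL (m L : ℕ) : ℝ :=
  Real.pi ^ ((m : ℝ) / 2) * Real.Gamma (L - m / 2) * (L - 1).factorial / (2 * L - 1).factorial

theorem cL_pos {L : ℕ} (hL : m < 2 * L) : 0 < cL m L := by
  unfold cL
  have h1 : (0:ℝ) < L - m / 2 := by
    have : (m:ℝ) < 2 * L := by exact_mod_cast hL
    linarith
  have h2 := Real.Gamma_pos_of_pos h1
  have h3 := Real.pi_pos
  positivity

theorem t_int {a r : ℝ} (ha : 0 < a) (hr : 0 < r) :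
    IntegrableOn (fun t : ℝ => t ^ (a - 1) * Real.exp (-(r * t))) (Ioi 0) := by
  have h := integrableOn_rpow_mul_exp_neg_mul_rpow (p := 1) (s := a - 1) (b := r) (by linarith)
    one_pos hr
  refine h.congr_fun (fun x hx => ?_) measurableSet_Ioi
  simp only [Real.rpow_one, neg_mul]

/-- for fixed `r`, the integral over the parameters -/
theorem fix_r {L : ℕ} (hL : m < 2 * L) {r : ℝ} (hr : 0 < r) (h : ℂ) (y : Fin m → ℂ) :
    Integrable (fun x : XX m => ((x.2 ^ ((L : ℝ) - m / 2 - 1) : ℝ) : ℂ) * cexp (-(Ph h y x * r)))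
      (mu m) ∧
    ∫ x : XX m, ((x.2 ^ ((L : ℝ) - m / 2 - 1) : ℝ) : ℂ) * cexp (-(Ph h y x * r)) ∂(mu m) =
      (Real.pi ^ ((m : ℝ) / 2) * Real.Gamma (L - m / 2) * r ^ (-(L:ℝ)) : ℝ) * cexp (-(h * r)) := by
  have ha : (0:ℝ) < L - m / 2 := by
    have : (m:ℝ) < 2 * L := by exact_mod_cast hL
    linarith
  have e : (fun x : XX m => ((x.2 ^ ((L : ℝ) - m / 2 - 1) : ℝ) : ℂ) * cexp (-(Ph h y x * r))) =
      fun x => cexp (-(h * r)) * (cexp (-(r * ∑ i, (y i - x.1 i) ^ 2)) *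
        (((x.2 ^ ((L : ℝ) - m / 2 - 1) * Real.exp (-(r * x.2)) : ℝ)) : ℂ)) := by
    funext x
    unfold Ph
    push_cast
    have : -((h + x.2 + ∑ i, (y i - x.1 i) ^ 2) * (r:ℂ)) =
      -(h * r) + (-(r * ∑ i, (y i - x.1 i) ^ 2) + -(r * x.2)) := by ring
    rw [this, Complex.exp_add, Complex.exp_add]
    ring
  have hg := gauss_int hr y
  have ht : Integrable (fun t : ℝ => (((t ^ ((L : ℝ) - m / 2 - 1) * Real.exp (-(r * t)) : ℝ)) : ℂ))
      (volume.restrict (Ioi 0)) := (t_int ha hr).ofReal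
  have hp := hg.mul_prod ht
  constructor
  · rw [e]
    exact hp.const_mul _
  · rw [e, integral_const_mul]
    unfold mu
    rw [integral_prod_mul (fun s : Fin m → ℝ => cexp (-(r * ∑ i, (y i - s i) ^ 2)))
      (fun t : ℝ => (((t ^ ((L : ℝ) - m / 2 - 1) * Real.exp (-(r * t)) : ℝ)) : ℂ)),
      gauss_eq hr y, integral_complex_ofReal, Real.integral_rpow_mul_exp_neg_mul_Ioi ha hr,
      mul_comm (cexp _)]
    congr 1
    rw [← Complex.ofReal_mul]
    congr 1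
    rw [Real.div_rpow Real.pi_pos.le hr.le, Real.div_rpow zero_le_one hr.le, Real.one_rpow]
    have h2 : r ^ (-(L:ℝ)) = 1 / r ^ ((m:ℝ) / 2) * (1 / r ^ ((L:ℝ) - m / 2)) := by
      rw [one_div_mul_one_div, ← Real.rpow_add hr, Real.rpow_neg hr.le, one_div]
      congr 2
      ring
    rw [h2]
    ring

theorem norm_ker (a : ℝ) (h : ℂ) (y : Fin m → ℂ) (r : ℝ) {x : XX m} (hx : 0 < x.2) :
    ‖((x.2 ^ a : ℝ) : ℂ) * cexp (-(Ph h y x * r))‖ =
      x.2 ^ a * Real.exp (-((Ph h y x).re * r)) := by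
  rw [norm_mul, Complex.norm_real, Real.norm_of_nonneg (by positivity), Complex.norm_exp]
  simp

/-- the real parameters -/
theorem Ph_real (h : ℂ) (y : Fin m → ℂ) (x : XX m) :
    Ph (((h.re - ∑ i, (y i).im ^ 2 : ℝ)) : ℂ) (fun i => (((y i).re : ℝ) : ℂ)) x =
      (((Ph h y x).re : ℝ) : ℂ) := by
  rw [Ph_re, Ph, Finset.sum_sub_distrib]
  push_cast
  ring

theorem norm_fix {L : ℕ} (hL : m < 2 * L) {r : ℝ} (hr : 0 < r) (h : ℂ) (y : Fin m → ℂ) :
    ∫ x : XX m, ‖((x.2 ^ ((L : ℝ) - m / 2 - 1) : ℝ) : ℂ) * cexp (-(Ph h y x * r))‖ ∂(mu m) =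
      Real.pi ^ ((m : ℝ) / 2) * Real.Gamma (L - m / 2) * r ^ (-(L:ℝ)) *
        Real.exp (-((h.re - ∑ i, (y i).im ^ 2) * r)) := by
  have h1 := (fix_r hL hr (((h.re - ∑ i, (y i).im ^ 2 : ℝ)) : ℂ)
    (fun i => (((y i).re : ℝ) : ℂ))).2
  have h2 : ∀ᵐ x ∂(mu m), ((‖((x.2 ^ ((L : ℝ) - m / 2 - 1) : ℝ) : ℂ) *
      cexp (-(Ph h y x * r))‖ : ℝ) : ℂ) = ((x.2 ^ ((L : ℝ) - m / 2 - 1) : ℝ) : ℂ) *
      cexp (-(Ph (((h.re - ∑ i, (y i).im ^ 2 : ℝ)) : ℂ)
        (fun i => (((y i).re : ℝ) : ℂ)) x * r)) := by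
    filter_upwards [mu_pos] with x hx
    rw [norm_ker _ h y r hx, Ph_real]
    push_cast
    rfl
  have h3 := integral_congr_ae h2
  rw [h1, integral_complex_ofReal] at h3
  have h4 : ((Real.pi ^ ((m : ℝ) / 2) * Real.Gamma (L - m / 2) * r ^ (-(L:ℝ)) : ℝ) : ℂ) *
      cexp (-((((h.re - ∑ i, (y i).im ^ 2 : ℝ)) : ℂ) * r)) =
      ((Real.pi ^ ((m : ℝ) / 2) * Real.Gamma (L - m / 2) * r ^ (-(L:ℝ)) *
        Real.exp (-((h.re - ∑ i, (y i).im ^ 2) * r)) : ℝ) : ℂ) := by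
    push_cast
    rfl
  rw [h4] at h3
  exact_mod_cast h3

theorem Ph_cont (h : ℂ) (y : Fin m → ℂ) : Continuous (Ph h y) := by
  unfold Ph
  fun_prop

theorem meas_G (L : ℕ) (h : ℂ) (y : Fin m → ℂ) :
    Measurable (fun q : XX m × ℝ => ((q.2 : ℂ)) ^ (2 * L - 1) *
      (((q.1.2 ^ ((L : ℝ) - m / 2 - 1) : ℝ) : ℂ) * cexp (-(Ph h y q.1 * q.2)))) := by
  have h1 : Measurable (fun q : XX m × ℝ => Ph h y q.1) :=
    (Ph_cont h y).measurable.comp measurable_fst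
  fun_prop

theorem rpow_red {L : ℕ} (hL : 1 ≤ L) {r : ℝ} (hr : 0 < r) :
    r ^ (2 * L - 1) * r ^ (-(L:ℝ)) = r ^ (L - 1) := by
  have e1 : (r ^ (2 * L - 1) : ℝ) = r ^ ((2 * L - 1 : ℕ) : ℝ) := (Real.rpow_natCast r _).symm
  have e2 : (r ^ (L - 1) : ℝ) = r ^ ((L - 1 : ℕ) : ℝ) := (Real.rpow_natCast r _).symm
  rw [e1, e2, ← Real.rpow_add hr]
  congr 1
  rw [Nat.cast_sub (by omega), Nat.cast_sub hL]
  push_cast
  ring

theorem G_int {L : ℕ} (hL : m < 2 * L) (h : ℂ) (y : Fin m → ℂ) (hy : ∑ i, (y i).im ^ 2 < h.re) :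
    Integrable (fun q : XX m × ℝ => ((q.2 : ℂ)) ^ (2 * L - 1) *
      (((q.1.2 ^ ((L : ℝ) - m / 2 - 1) : ℝ) : ℂ) * cexp (-(Ph h y q.1 * q.2))))
      ((mu m).prod (volume.restrict (Ioi 0))) := by
  have hL1 : 1 ≤ L := by omega
  rw [integrable_prod_iff' (meas_G L h y).aestronglyMeasurable]
  constructor
  · filter_upwards [ae_restrict_mem measurableSet_Ioi] with r hr
    exact (fix_r hL hr h y).1.const_mul _
  · have h0 : 0 < h.re - ∑ i, (y i).im ^ 2 := by linarith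
    have h1 := (pow_exp_int (L - 1) h0).const_mul
      (Real.pi ^ ((m : ℝ) / 2) * Real.Gamma (L - m / 2))
    refine h1.congr ?_
    filter_upwards [ae_restrict_mem measurableSet_Ioi] with r hr
    have hr' : (0:ℝ) < r := hr
    have h2 : ∀ x : XX m, ‖((r : ℂ)) ^ (2 * L - 1) *
      (((x.2 ^ ((L : ℝ) - m / 2 - 1) : ℝ) : ℂ) * cexp (-(Ph h y x * r)))‖ =
      r ^ (2 * L - 1) * ‖(((x.2 ^ ((L : ℝ) - m / 2 - 1) : ℝ) : ℂ) *
        cexp (-(Ph h y x * r)))‖ := by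
      intro x
      rw [norm_mul, norm_pow, Complex.norm_real, Real.norm_of_nonneg hr'.le]
    simp_rw [h2]
    rw [integral_const_mul, norm_fix hL hr', ← rpow_red hL1 hr']
    ring

/-- **The reproducing identity.** -/
theorem ker_int {L : ℕ} (hL : m < 2 * L) (h : ℂ) (y : Fin m → ℂ)
    (hy : ∑ i, (y i).im ^ 2 < h.re) :
    Integrable (fun x : XX m => ((x.2 ^ ((L : ℝ) - m / 2 - 1) : ℝ) : ℂ) / Ph h y x ^ (2 * L))
      (mu m) ∧
    ∫ x : XX m, ((x.2 ^ ((L : ℝ) - m / 2 - 1) : ℝ) : ℂ) / Ph h y x ^ (2 * L) ∂(mu m) =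
      cL m L / h ^ L := by
  have hL1 : 1 ≤ L := by omega
  have hG := G_int hL h y hy
  have hfac : ((2 * L - 1).factorial : ℂ) ≠ 0 := by exact_mod_cast (Nat.factorial_pos _).ne'
  have e1 : ∀ᵐ x ∂(mu m), ∫ r in Ioi (0:ℝ), ((r : ℂ)) ^ (2 * L - 1) *
      (((x.2 ^ ((L : ℝ) - m / 2 - 1) : ℝ) : ℂ) * cexp (-(Ph h y x * r))) =
      ((2 * L - 1).factorial : ℂ) *
        (((x.2 ^ ((L : ℝ) - m / 2 - 1) : ℝ) : ℂ) / Ph h y x ^ (2 * L)) := by
    filter_upwards [mu_pos] with x hx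
    have h1 := integral_pow_cexp (2 * L - 1) (Ph_re_pos hy hx)
    have h2 : (fun r : ℝ => ((r : ℂ)) ^ (2 * L - 1) *
      (((x.2 ^ ((L : ℝ) - m / 2 - 1) : ℝ) : ℂ) * cexp (-(Ph h y x * r)))) =
      fun r : ℝ => (((x.2 ^ ((L : ℝ) - m / 2 - 1) : ℝ) : ℂ)) *
        ((r : ℂ) ^ (2 * L - 1) * cexp (-(Ph h y x * r))) := by
      funext r; ring
    rw [h2, integral_const_mul, h1, show 2 * L - 1 + 1 = 2 * L by omega]
    ring
  have e2 : ∀ r ∈ Ioi (0:ℝ), ∫ x : XX m, ((r : ℂ)) ^ (2 * L - 1) *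
      (((x.2 ^ ((L : ℝ) - m / 2 - 1) : ℝ) : ℂ) * cexp (-(Ph h y x * r))) ∂(mu m) =
      ((Real.pi ^ ((m : ℝ) / 2) * Real.Gamma (L - m / 2) : ℝ) : ℂ) *
        ((r : ℂ) ^ (L - 1) * cexp (-(h * r))) := by
    intro r hr
    have hr' : (0:ℝ) < r := hr
    rw [integral_const_mul, (fix_r hL hr' h y).2]
    have h3 := rpow_red hL1 hr'
    have h4 : ((r:ℂ)) ^ (L - 1) = (r:ℂ) ^ (2 * L - 1) * ((r ^ (-(L:ℝ)) : ℝ) : ℂ) := by
      rw [← Complex.ofReal_pow, ← h3]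
      push_cast
      rfl
    rw [h4]
    push_cast
    ring
  have e3 := integral_integral_swap (μ := mu m) (ν := volume.restrict (Ioi (0:ℝ)))
    (f := fun x r => ((r : ℂ)) ^ (2 * L - 1) *
      (((x.2 ^ ((L : ℝ) - m / 2 - 1) : ℝ) : ℂ) * cexp (-(Ph h y x * r)))) hG
  rw [integral_congr_ae e1, setIntegral_congr_fun measurableSet_Ioi e2, integral_const_mul,
    integral_const_mul] at e3
  have hhre : 0 < h.re := by
    have : 0 ≤ ∑ i, (y i).im ^ 2 := Finset.sum_nonneg fun i _ => sq_nonneg _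
    linarith
  rw [integral_pow_cexp (L - 1) hhre, show L - 1 + 1 = L by omega] at e3
  constructor
  · have h5 := hG.integral_prod_left
    have h6 := (h5.congr e1).const_mul (((2 * L - 1).factorial : ℂ)⁻¹)
    refine h6.congr (Eventually.of_forall fun x => ?_)
    dsimp only
    rw [← mul_assoc, inv_mul_cancel₀ hfac, one_mul]
  · have h7 : ∫ x : XX m, ((x.2 ^ ((L : ℝ) - m / 2 - 1) : ℝ) : ℂ) / Ph h y x ^ (2 * L) ∂(mu m) =
      ((2 * L - 1).factorial : ℂ)⁻¹ * (((2 * L - 1).factorial : ℂ) *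
        ∫ x : XX m, ((x.2 ^ ((L : ℝ) - m / 2 - 1) : ℝ) : ℂ) / Ph h y x ^ (2 * L) ∂(mu m)) := by
      rw [← mul_assoc, inv_mul_cancel₀ hfac, one_mul]
    rw [h7, e3]
    unfold cL
    push_cast
    ring

/-- the real version -/
theorem ker_real {L : ℕ} (hL : m < 2 * L) {c : ℝ} (hc : 0 < c) (y : Fin m → ℝ) :
    Integrable (fun x : XX m => x.2 ^ ((L : ℝ) - m / 2 - 1) /
      (c + x.2 + ∑ i, (y i - x.1 i) ^ 2) ^ (2 * L)) (mu m) ∧
    ∫ x : XX m, x.2 ^ ((L : ℝ) - m / 2 - 1) /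
      (c + x.2 + ∑ i, (y i - x.1 i) ^ 2) ^ (2 * L) ∂(mu m) = cL m L / c ^ L := by
  have h := ker_int hL (c : ℂ) (fun i => ((y i : ℝ) : ℂ)) (by simpa using hc)
  have e : (fun x : XX m => ((x.2 ^ ((L : ℝ) - m / 2 - 1) : ℝ) : ℂ) /
      Ph (c : ℂ) (fun i => ((y i : ℝ) : ℂ)) x ^ (2 * L)) =
      fun x : XX m => ((x.2 ^ ((L : ℝ) - m / 2 - 1) /
      (c + x.2 + ∑ i, (y i - x.1 i) ^ 2) ^ (2 * L) : ℝ) : ℂ) := by
    funext x
    unfold Ph
    push_cast
    rfl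
  rw [e] at h
  constructor
  · have h3 := h.1.re
    simpa only [RCLike.re_eq_complex_re, Complex.ofReal_re] using h3
  · have h2 := h.2
    rw [integral_complex_ofReal] at h2
    exact_mod_cast h2

end Pool.Agent.Y263.RB
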