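import Mathlib
import Pool.Agent.W721.Cor.Mv
import Pool.Agent.Y263.RB.Int

/-!
The kernel on the ball: Siegel coordinates, automorphisms, elementary estimates.
-/

set_option autoImplicit false

open MeasureTheory Set Filter Topology Complex Metric

namespace Pool.Agent.Y263.RB

open Pool.Agent.W732.Cor (V mv S_mv)
open Pool.Agent.W721.Cor.Mv

variable {m : ℕ}

/-- an automorphism of the ball with its inverse -/
structure Aut (ψ φ : V m → V m) : Prop where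
  d1 : DifferentiableOn ℂ ψ (ball 0 1)
  d2 : DifferentiableOn ℂ φ (ball 0 1)
  m1 : MapsTo ψ (ball 0 1) (ball 0 1)
  m2 : MapsTo φ (ball 0 1) (ball 0 1)
  l : ∀ z ∈ ball (0 : V m) 1, φ (ψ z) = z
  r : ∀ z ∈ ball (0 : V m) 1, ψ (φ z) = z

theorem Aut.symm {ψ φ : V m → V m} (h : Aut ψ φ) : Aut φ ψ :=
  ⟨h.d2, h.d1, h.m2, h.m1, h.r, h.l⟩

/-- for every point of the ball there is an automorphism which maps it to the centre -/
theorem exists_aut (a : V (m + 1)) (ha : ‖a‖ < 1) : ∃ ψ φ : V (m + 1) → V (m + 1), Aut ψ φ ∧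
    ∀ z ∈ ball (0 : V (m + 1)) 1, (1 - ‖ψ z‖ ^ 2) * ‖1 - (inner ℂ a z : ℂ)‖ ^ 2 =
      (1 - ‖a‖ ^ 2) * (1 - ‖z‖ ^ 2) := by
  obtain ⟨p, hp, hap⟩ : ∃ p : V (m + 1), ‖p‖ = 1 ∧ a = ((‖a‖ : ℝ) : ℂ) • p := by
    by_cases h0 : a = 0
    · refine ⟨EuclideanSpace.single 0 1, by simp, ?_⟩
      rw [h0]; simp
    · refine ⟨((‖a‖⁻¹ : ℝ) : ℂ) • a, ?_, ?_⟩
      · rw [norm_smul, Complex.norm_real, norm_inv, norm_norm]
        exact inv_mul_cancel₀ (norm_ne_zero_iff.2 h0)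
      · rw [smul_smul, ← Complex.ofReal_mul, mul_inv_cancel₀ (norm_ne_zero_iff.2 h0)]
        simp
  have hb : (-((‖a‖ : ℝ) : ℂ)) ∈ ball (0 : ℂ) 1 := by
    rw [mem_ball_zero_iff, norm_neg, Complex.norm_real, norm_norm]
    exact ha
  have hb' : ((‖a‖ : ℝ) : ℂ) ∈ ball (0 : ℂ) 1 := by
    rw [mem_ball_zero_iff, Complex.norm_real, norm_norm]
    exact ha
  have h1 := main (m + 1) p hp _ hb
  have h2 := main (m + 1) p hp _ hb'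
  refine ⟨mv p (-((‖a‖ : ℝ) : ℂ)), mv p ((‖a‖ : ℝ) : ℂ), ⟨h1.1, h2.1, h1.2.1, h2.2.1, ?_, h2.2.2.1⟩,
    ?_⟩
  · intro z hz
    have := h1.2.2.1 z hz
    rwa [neg_neg] at this
  · intro z hz
    set b : ℂ := -((‖a‖ : ℝ) : ℂ) with hbd
    set ξ : ℂ := inner ℂ p z with hξ
    have hnb : ‖b‖ = ‖a‖ := by rw [hbd, norm_neg, Complex.norm_real, norm_norm]
    have hxi := inner_lt hp hz
    have hden := den_ne (a := b) (by rw [hnb]; exact ha) hxi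
    have hin : (inner ℂ a z : ℂ) = ((‖a‖ : ℝ) : ℂ) * ξ := by
      conv_lhs => rw [hap]
      rw [inner_smul_left, Complex.conj_ofReal]
    have hden2 : 1 + starRingEnd ℂ b * ξ = 1 - (inner ℂ a z : ℂ) := by
      rw [hin, hbd, map_neg, Complex.conj_ofReal]
      ring
    have hs : 0 ≤ 1 - ‖b‖ ^ 2 := by rw [hnb]; nlinarith [norm_nonneg a]
    have e1 : mv p b z = ((ξ + b) / (1 + starRingEnd ℂ b * ξ)) • p +
        (((√(1 - ‖b‖ ^ 2) : ℝ) : ℂ) / (1 + starRingEnd ℂ b * ξ)) • (z - ξ • p) := by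
      rw [mv, ← hξ]
      module
    have e2 := norm_comb hp (inner_perp hp z) ((ξ + b) / (1 + starRingEnd ℂ b * ξ))
      (((√(1 - ‖b‖ ^ 2) : ℝ) : ℂ) / (1 + starRingEnd ℂ b * ξ))
    rw [← hξ, ← e1, norm_div, norm_div, Complex.norm_real, Real.norm_of_nonneg (Real.sqrt_nonneg _),
      div_pow, div_pow, Real.sq_sqrt hs] at e2
    have e3 := norm_dec hp z
    rw [← hξ] at e3
    have e4 := lemA b ξ
    have hd : ‖1 + starRingEnd ℂ b * ξ‖ ^ 2 ≠ 0 := by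
      have := norm_ne_zero_iff.2 hden
      positivity
    rw [← hden2, e2]
    have e5 : ∀ D A B C : ℝ, D ≠ 0 → (1 - (A / D + B / D * C)) * D = D - A - B * C := by
      intro D A B C hD
      field_simp
      ring
    rw [e5 _ _ _ _ hd, e4, e3, hnb]
    ring

/-- Siegel coordinates -/
noncomputable def hh (z : V (m + 1)) : ℂ := (1 - ∑ i, z i ^ 2) / (1 - z 0) ^ 2

/-- Siegel coordinates -/
noncomputable def yy (z : V (m + 1)) (i : Fin m) : ℂ := z i.succ / (1 - z 0)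

/-- the height -/
noncomputable def rr (z : V (m + 1)) : ℝ := (1 - ‖z‖ ^ 2) / ‖1 - z 0‖ ^ 2

/-- the denominator of the kernel -/
noncomputable def PP (z : V (m + 1)) (x : XX m) : ℂ := Ph (hh z) (yy z) x

theorem z0_lt {z : V (m + 1)} (hz : ‖z‖ < 1) : ‖z 0‖ < 1 :=
  (PiLp.norm_apply_le z 0).trans_lt hz

theorem u_ne {z : V (m + 1)} (hz : ‖z‖ < 1) : 1 - z 0 ≠ 0 := by
  intro h
  have h1 : z 0 = 1 := by linear_combination -h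
  have h2 := z0_lt hz
  rw [h1, norm_one] at h2
  exact lt_irrefl _ h2

theorem rr_pos {z : V (m + 1)} (hz : ‖z‖ < 1) : 0 < rr z := by
  unfold rr
  have h1 : 0 < 1 - ‖z‖ ^ 2 := by nlinarith [norm_nonneg z]
  have h2 : 0 < ‖1 - z 0‖ := norm_pos_iff.2 (u_ne hz)
  positivity

theorem norm_sq_split (z : V (m + 1)) : ‖z‖ ^ 2 = ‖z 0‖ ^ 2 + ∑ i : Fin m, ‖z i.succ‖ ^ 2 := by
  rw [EuclideanSpace.norm_sq_eq, Fin.sum_univ_succ]

theorem re_hh {z : V (m + 1)} (hz : ‖z‖ < 1) : (hh z).re = rr z + 2 * ∑ i, (yy z i).im ^ 2 := by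
  have hu := u_ne hz
  have hn : Complex.normSq (1 - z 0) ≠ 0 := by rwa [Ne, Complex.normSq_eq_zero]
  have e1 : hh z = (1 + z 0) / (1 - z 0) - ∑ i, yy z i ^ 2 := by
    unfold hh yy
    rw [Fin.sum_univ_succ]
    simp_rw [div_pow]
    rw [← Finset.sum_div]
    field_simp
    ring
  have e2 : ((1 + z 0) / (1 - z 0)).re = (1 - ‖z 0‖ ^ 2) / ‖1 - z 0‖ ^ 2 := by
    rw [Complex.div_re, ← add_div, ← Complex.normSq_eq_norm_sq (1 - z 0),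
      ← Complex.normSq_eq_norm_sq (z 0)]
    congr 1
    simp [Complex.normSq_apply]
    ring
  have e3 : rr z = (1 - ‖z 0‖ ^ 2) / ‖1 - z 0‖ ^ 2 - ∑ i, ‖yy z i‖ ^ 2 := by
    unfold rr yy
    simp_rw [norm_div, div_pow]
    rw [← Finset.sum_div, norm_sq_split]
    ring
  rw [e1, e3, Complex.sub_re, e2, Complex.re_sum, Finset.mul_sum]
  have e4 : ∑ i, (yy z i ^ 2).re = ∑ i, ‖yy z i‖ ^ 2 - ∑ i, 2 * (yy z i).im ^ 2 := by
    rw [← Finset.sum_sub_distrib]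
    refine Finset.sum_congr rfl fun i _ => ?_
    rw [← Complex.normSq_eq_norm_sq, Complex.normSq_apply, pow_two (yy z i), Complex.mul_re]
    ring
  rw [e4]
  ring

theorem im_lt {z : V (m + 1)} (hz : ‖z‖ < 1) : ∑ i, (yy z i).im ^ 2 < (hh z).re := by
  rw [re_hh hz]
  have h1 := rr_pos hz
  have h2 : 0 ≤ ∑ i, (yy z i).im ^ 2 := Finset.sum_nonneg fun i _ => sq_nonneg _
  linarith

theorem PP_re {z : V (m + 1)} (hz : ‖z‖ < 1) (x : XX m) :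
    (PP z x).re = rr z + x.2 + ∑ i, ‖yy z i - x.1 i‖ ^ 2 := by
  unfold PP
  rw [Ph_re, re_hh hz]
  have e : ∑ i, ‖yy z i - x.1 i‖ ^ 2 = ∑ i, (((yy z i).re - x.1 i) ^ 2 - (yy z i).im ^ 2) +
      2 * ∑ i, (yy z i).im ^ 2 := by
    rw [Finset.mul_sum, ← Finset.sum_add_distrib]
    refine Finset.sum_congr rfl fun i _ => ?_
    rw [← Complex.normSq_eq_norm_sq, Complex.normSq_apply]
    simp
    ring
  rw [e]
  ring

theorem PP_re_le {z : V (m + 1)} (hz : ‖z‖ < 1) (x : XX m) :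
    rr z + x.2 + ∑ i, ‖yy z i - x.1 i‖ ^ 2 ≤ ‖PP z x‖ := by
  rw [← PP_re hz]
  exact Complex.re_le_norm _

theorem PP_pos {z : V (m + 1)} (hz : ‖z‖ < 1) {x : XX m} (hx : 0 < x.2) : 0 < ‖PP z x‖ := by
  have h1 := PP_re_le hz x
  have h2 := rr_pos hz
  have h3 : 0 ≤ ∑ i, ‖yy z i - x.1 i‖ ^ 2 := Finset.sum_nonneg fun i _ => sq_nonneg _
  linarith

theorem hh_le {z : V (m + 1)} (hz : ‖z‖ < 1) {x : XX m} (hx : 0 < x.2) :
    ‖hh z‖ ≤ 2 * ‖PP z x‖ := by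
  have h1 := PP_re_le hz x
  have h2 := rr_pos hz
  have e : hh z = PP z x - x.2 - ∑ i, (yy z i - x.1 i) ^ 2 := by
    unfold PP Ph
    ring
  have h3 : ‖∑ i, (yy z i - (x.1 i : ℂ)) ^ 2‖ ≤ ∑ i, ‖yy z i - x.1 i‖ ^ 2 := by
    refine (norm_sum_le _ _).trans (le_of_eq ?_)
    exact Finset.sum_congr rfl fun i _ => norm_pow _ _
  have h4 : ‖((x.2 : ℝ) : ℂ)‖ = x.2 := by rw [Complex.norm_real, Real.norm_of_nonneg hx.le]
  calc ‖hh z‖ = ‖PP z x - x.2 - ∑ i, (yy z i - x.1 i) ^ 2‖ := by rw [← e]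
    _ ≤ ‖PP z x‖ + x.2 + ∑ i, ‖yy z i - x.1 i‖ ^ 2 := by
        refine (norm_sub_le _ _).trans (add_le_add ((norm_sub_le _ _).trans ?_) h3)
        rw [h4]
    _ ≤ 2 * ‖PP z x‖ := by linarith

theorem PP_low {z : V (m + 1)} (hz : ‖z‖ < 1) {x : XX m} (hx : 0 < x.2) :
    ‖hh z‖ + x.2 + ∑ i, ((yy z i).re - x.1 i) ^ 2 ≤ 3 * ‖PP z x‖ := by
  have h1 := PP_re_le hz x
  have h2 := rr_pos hz
  have h3 := hh_le hz hx
  have h4 : ∑ i, ((yy z i).re - x.1 i) ^ 2 ≤ ∑ i, ‖yy z i - x.1 i‖ ^ 2 := by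
    refine Finset.sum_le_sum fun i _ => ?_
    rw [← Complex.normSq_eq_norm_sq, Complex.normSq_apply]
    simp
    nlinarith [sq_nonneg (yy z i).im]
  linarith

/-- neighbouring parameters -/
def Cl (x x' : XX m) : Prop :=
  x'.2 < 2 * x.2 ∧ x.2 < 2 * x'.2 ∧ ∑ i, (x.1 i - x'.1 i) ^ 2 < x.2

theorem PP_Cl {z : V (m + 1)} (hz : ‖z‖ < 1) {x x' : XX m} (hx : 0 < x.2) (h : Cl x x') :
    ‖PP z x'‖ ≤ 5 * ‖PP z x‖ := by
  obtain ⟨h1, h2, h3⟩ := h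
  have e : PP z x' = PP z x + ((x'.2 - x.2 : ℝ) : ℂ) +
      ∑ i, (((x.1 i : ℂ) - x'.1 i) ^ 2 + 2 * ((x.1 i : ℂ) - x'.1 i) * (yy z i - x.1 i)) := by
    unfold PP Ph
    have : ∑ i, (yy z i - (x'.1 i : ℂ)) ^ 2 = ∑ i, (yy z i - (x.1 i : ℂ)) ^ 2 +
      ∑ i, (((x.1 i : ℂ) - x'.1 i) ^ 2 + 2 * ((x.1 i : ℂ) - x'.1 i) * (yy z i - x.1 i)) := by
      rw [← Finset.sum_add_distrib]
      refine Finset.sum_congr rfl fun i _ => ?_
      ring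
    rw [this]
    push_cast
    ring
  have h4 := PP_re_le hz x
  have h5 := rr_pos hz
  have h6 : ‖∑ i, (((x.1 i : ℂ) - x'.1 i) ^ 2 + 2 * ((x.1 i : ℂ) - x'.1 i) * (yy z i - x.1 i))‖ ≤
      2 * ∑ i, (x.1 i - x'.1 i) ^ 2 + ∑ i, ‖yy z i - x.1 i‖ ^ 2 := by
    rw [Finset.mul_sum, ← Finset.sum_add_distrib]
    refine (norm_sum_le _ _).trans (Finset.sum_le_sum fun i _ => ?_)
    have h7 : ‖((x.1 i : ℂ) - x'.1 i)‖ ^ 2 = (x.1 i - x'.1 i) ^ 2 := by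
      rw [← Complex.ofReal_sub, Complex.norm_real, Real.norm_eq_abs, sq_abs]
    refine (norm_add_le _ _).trans ?_
    rw [norm_pow, norm_mul, norm_mul, h7]
    have h8 : ‖(2:ℂ)‖ = 2 := by simp
    rw [h8]
    nlinarith [sq_nonneg (‖((x.1 i : ℂ) - x'.1 i)‖ - ‖yy z i - x.1 i‖)]
  have h9 : ‖((x'.2 - x.2 : ℝ) : ℂ)‖ ≤ x.2 := by
    rw [Complex.norm_real, Real.norm_eq_abs, abs_le]
    constructor <;> linarith
  rw [e]
  calc _ ≤ ‖PP z x‖ + x.2 + (2 * ∑ i, (x.1 i - x'.1 i) ^ 2 + ∑ i, ‖yy z i - x.1 i‖ ^ 2) := by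
        refine (norm_add_le _ _).trans (add_le_add ((norm_add_le _ _).trans ?_) h6)
        linarith
    _ ≤ 5 * ‖PP z x‖ := by
        have h10 : 0 ≤ ∑ i, ‖yy z i - x.1 i‖ ^ 2 := Finset.sum_nonneg fun i _ => sq_nonneg _
        linarith [norm_nonneg (PP z x)]

/-- the real point with parameters `x` -/
noncomputable def aa (x : XX m) : V (m + 1) :=
  (WithLp.toLp 2 (Fin.cons ((((x.2 + ∑ i, x.1 i ^ 2) - 1) / ((x.2 + ∑ i, x.1 i ^ 2) + 1) : ℝ) : ℂ)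
    (fun i => ((2 * x.1 i / ((x.2 + ∑ i, x.1 i ^ 2) + 1) : ℝ) : ℂ)) : Fin (m + 1) → ℂ))

theorem aa_norm {x : XX m} (hx : 0 < x.2) :
    1 - ‖aa x‖ ^ 2 = 4 * x.2 / ((x.2 + ∑ i, x.1 i ^ 2) + 1) ^ 2 := by
  have hs : 0 ≤ ∑ i, x.1 i ^ 2 := Finset.sum_nonneg fun i _ => sq_nonneg _
  rw [norm_sq_split]
  unfold aa
  simp only [Fin.cons_zero, Fin.cons_succ, Complex.norm_real, Real.norm_eq_abs, sq_abs]
  have h1 : (0:ℝ) < (x.2 + ∑ i, x.1 i ^ 2) + 1 := by linarith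
  simp_rw [div_pow, mul_pow]
  rw [← Finset.sum_div, ← Finset.mul_sum]
  field_simp
  ring

theorem aa_lt {x : XX m} (hx : 0 < x.2) : ‖aa x‖ < 1 := by
  have h := aa_norm hx
  have hs : 0 ≤ ∑ i, x.1 i ^ 2 := Finset.sum_nonneg fun i _ => sq_nonneg _
  have h2 : 0 < 4 * x.2 / ((x.2 + ∑ i, x.1 i ^ 2) + 1) ^ 2 := by positivity
  nlinarith [norm_nonneg (aa x)]

theorem PP_aa {z : V (m + 1)} (hz : ‖z‖ < 1) {x : XX m} (hx : 0 < x.2) :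
    PP z x * (1 - z 0) = ((x.2 + ∑ i, x.1 i ^ 2) + 1 : ℝ) * (1 - inner ℂ (aa x) z) := by
  have hu := u_ne hz
  have hs : 0 ≤ ∑ i, x.1 i ^ 2 := Finset.sum_nonneg fun i _ => sq_nonneg _
  have h1 : (((x.2 + ∑ i, x.1 i ^ 2) + 1 : ℝ) : ℂ) ≠ 0 := by
    have : (0:ℝ) < (x.2 + ∑ i, x.1 i ^ 2) + 1 := by linarith
    exact_mod_cast this.ne'
  have e1 : (inner ℂ (aa x) z : ℂ) = ((x.2 + ∑ i, x.1 i ^ 2 - 1 : ℝ) : ℂ) /
      ((x.2 + ∑ i, x.1 i ^ 2) + 1 : ℝ) * z 0 +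
      ∑ i : Fin m, (2 * x.1 i : ℂ) / ((x.2 + ∑ i, x.1 i ^ 2) + 1 : ℝ) * z i.succ := by
    rw [PiLp.inner_apply, Fin.sum_univ_succ]
    unfold aa
    simp only [Fin.cons_zero, Fin.cons_succ, RCLike.inner_apply, Complex.conj_ofReal]
    push_cast
    rw [mul_comm]
    congr 1
    refine Finset.sum_congr rfl fun i _ => ?_
    ring
  have e2 : ((x.2 + ∑ i, x.1 i ^ 2) + 1 : ℝ) * (1 - (inner ℂ (aa x) z : ℂ)) =
      ((x.2 + ∑ i, x.1 i ^ 2) + 1 : ℝ) - ((x.2 + ∑ i, x.1 i ^ 2 - 1 : ℝ) : ℂ) * z 0 -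
      ∑ i : Fin m, (2 * x.1 i : ℂ) * z i.succ := by
    rw [e1, mul_sub, mul_add, Finset.mul_sum, mul_one]
    have e3 : ∀ i : Fin m, (((x.2 + ∑ i, x.1 i ^ 2) + 1 : ℝ) : ℂ) *
      ((2 * x.1 i : ℂ) / ((x.2 + ∑ i, x.1 i ^ 2) + 1 : ℝ) * z i.succ) =
      (2 * x.1 i : ℂ) * z i.succ := by
      intro i
      field_simp
    simp_rw [e3]
    field_simp
    ring
  rw [e2]
  unfold PP Ph hh yy
  have e4 : ∑ i : Fin m, (z i.succ / (1 - z 0) - (x.1 i : ℂ)) ^ 2 =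
      (∑ i : Fin m, z i.succ ^ 2) / (1 - z 0) ^ 2 - (∑ i : Fin m, (2 * x.1 i : ℂ) * z i.succ) / (1 - z 0)
      + ∑ i : Fin m, (x.1 i : ℂ) ^ 2 := by
    rw [Finset.sum_div, Finset.sum_div, ← Finset.sum_sub_distrib, ← Finset.sum_add_distrib]
    refine Finset.sum_congr rfl fun i _ => ?_
    field_simp
    ring
  rw [e4, Fin.sum_univ_succ]
  push_cast
  field_simp
  ring

/-- the weight `σ = 4 r t / |Φ|²` is `1 - |ψ|²` -/
theorem exists_aut_x {x : XX m} (hx : 0 < x.2) : ∃ ψ φ : V (m + 1) → V (m + 1), Aut ψ φ ∧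
    ∀ z ∈ ball (0 : V (m + 1)) 1, 1 - ‖ψ z‖ ^ 2 = 4 * rr z * x.2 / ‖PP z x‖ ^ 2 := by
  obtain ⟨ψ, φ, hA, h⟩ := exists_aut (aa x) (aa_lt hx)
  refine ⟨ψ, φ, hA, fun z hz => ?_⟩
  have hz1 : ‖z‖ < 1 := by simpa using hz
  have h1 := h z hz
  have h2 := PP_aa hz1 hx
  have hs : 0 ≤ ∑ i, x.1 i ^ 2 := Finset.sum_nonneg fun i _ => sq_nonneg _
  have h3 : (0:ℝ) < (x.2 + ∑ i, x.1 i ^ 2) + 1 := by linarith
  have h4 : ‖PP z x‖ * ‖1 - z 0‖ = ((x.2 + ∑ i, x.1 i ^ 2) + 1) * ‖1 - (inner ℂ (aa x) z : ℂ)‖ := by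
    rw [← norm_mul, h2, norm_mul, Complex.norm_real, Real.norm_of_nonneg h3.le]
  have h5 := PP_pos hz1 hx
  have h6 : 0 < ‖1 - z 0‖ := norm_pos_iff.2 (u_ne hz1)
  rw [aa_norm hx] at h1
  rw [eq_div_iff (by positivity)]
  have h7 : 0 < ‖1 - (inner ℂ (aa x) z : ℂ)‖ := by
    by_contra hc
    push Not at hc
    have h8 : 0 < ‖PP z x‖ * ‖1 - z 0‖ := by positivity
    rw [h4] at h8
    nlinarith
  have h9 : ‖1 - (inner ℂ (aa x) z : ℂ)‖ = ‖PP z x‖ * ‖1 - z 0‖ / ((x.2 + ∑ i, x.1 i ^ 2) + 1) := by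
    rw [h4]
    field_simp
  rw [h9] at h1
  unfold rr
  field_simp at h1 ⊢
  linarith

end Pool.Agent.Y263.RB
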