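import Mathlib
import Pool.Agent.HopfPinch.AnS1
import Pool.Agent.Y263.RB.Geo

/-!
The averaging operator over the totally real ball.
-/

set_option autoImplicit false

open MeasureTheory Set Filter Topology Complex Metric

namespace Pool.Agent.Y263.RB

open Pool.Agent.W732.Cor (V mv S_mv)

variable {m : ℕ}

theorem div_on {E : Type} [NormedAddCommGroup E] [NormedSpace ℂ E] {f g : E → ℂ} {s : Set E}
    (hf : DifferentiableOn ℂ f s) (hg : DifferentiableOn ℂ g s) (h : ∀ x ∈ s, g x ≠ 0) :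
    DifferentiableOn ℂ (fun x => f x / g x) s := by
  simp_rw [div_eq_mul_inv]
  exact hf.fun_mul (hg.fun_inv h)

/-- the kernel -/
noncomputable def KK (L : ℕ) (z : V (m + 1)) (x : XX m) : ℂ :=
  ((x.2 ^ ((L : ℝ) - m / 2 - 1) : ℝ) : ℂ) / PP z x ^ (2 * L)

theorem KK_norm (L : ℕ) (z : V (m + 1)) {x : XX m} (hx : 0 < x.2) :
    ‖KK L z x‖ = x.2 ^ ((L : ℝ) - m / 2 - 1) / ‖PP z x‖ ^ (2 * L) := by
  unfold KK
  rw [norm_div, norm_pow, Complex.norm_real, Real.norm_of_nonneg (by positivity)]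

theorem KK_meas (L : ℕ) (z : V (m + 1)) : Measurable (KK L z) := by
  unfold KK PP
  have h1 := (Ph_cont (hh z) (yy z)).measurable
  fun_prop

theorem KK_int {L : ℕ} (hL : m < 2 * L) {z : V (m + 1)} (hz : ‖z‖ < 1) :
    Integrable (KK L z) (mu m) ∧ ∫ x, KK L z x ∂(mu m) = cL m L / hh z ^ L :=
  ker_int hL (hh z) (yy z) (im_lt hz)

theorem hh_pos {z : V (m + 1)} (hz : ‖z‖ < 1) : 0 < ‖hh z‖ := by
  have h1 := re_hh hz
  have h2 := rr_pos hz
  have h3 : 0 ≤ ∑ i, (yy z i).im ^ 2 := Finset.sum_nonneg fun i _ => sq_nonneg _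
  exact lt_of_lt_of_le (by linarith) (Complex.re_le_norm _)

theorem KK_norm_int {L : ℕ} (hL : m < 2 * L) {z : V (m + 1)} (hz : ‖z‖ < 1) :
    ‖hh z‖ ^ L * ∫ x, ‖KK L z x‖ ∂(mu m) ≤ 9 ^ L * cL m L := by
  have h1 := ker_real (m := m) hL (hh_pos hz) (fun i => (yy z i).re)
  have h2 : ∫ x, ‖KK L z x‖ ∂(mu m) ≤ ∫ x : XX m, 9 ^ L * (x.2 ^ ((L : ℝ) - m / 2 - 1) /
      (‖hh z‖ + x.2 + ∑ i, ((yy z i).re - x.1 i) ^ 2) ^ (2 * L)) ∂(mu m) := by
    refine integral_mono_ae (KK_int hL hz).1.norm (h1.1.const_mul _) ?_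
    filter_upwards [mu_pos] with x hx
    rw [KK_norm L z hx]
    have h3 := PP_low hz hx
    have h4 := hh_pos hz
    have h5 : 0 ≤ ∑ i, ((yy z i).re - x.1 i) ^ 2 := Finset.sum_nonneg fun i _ => sq_nonneg _
    have h6 : 0 < ‖hh z‖ + x.2 + ∑ i, ((yy z i).re - x.1 i) ^ 2 := by linarith
    have h7 := PP_pos hz hx
    have h8 : (‖hh z‖ + x.2 + ∑ i, ((yy z i).re - x.1 i) ^ 2) ^ (2 * L) ≤
        9 ^ L * ‖PP z x‖ ^ (2 * L) := by
      calc _ ≤ (3 * ‖PP z x‖) ^ (2 * L) := pow_le_pow_left₀ h6.le h3 _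
        _ = 9 ^ L * ‖PP z x‖ ^ (2 * L) := by
            rw [mul_pow, pow_mul (3:ℝ)]
            norm_num
    rw [← mul_div_assoc, div_le_div_iff₀ (by positivity) (by positivity)]
    have h9 : 0 ≤ x.2 ^ ((L : ℝ) - m / 2 - 1) := by positivity
    calc _ ≤ x.2 ^ ((L : ℝ) - m / 2 - 1) * (9 ^ L * ‖PP z x‖ ^ (2 * L)) :=
          mul_le_mul_of_nonneg_left h8 h9
      _ = _ := by ring
  rw [integral_const_mul, h1.2] at h2
  have h4 := hh_pos hz
  calc _ ≤ ‖hh z‖ ^ L * (9 ^ L * (cL m L / ‖hh z‖ ^ L)) :=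
        mul_le_mul_of_nonneg_left h2 (by positivity)
    _ = 9 ^ L * cL m L := by field_simp

/-! ### the choice of neighbours -/

/-- a dense sequence of parameters -/
noncomputable def dn (m : ℕ) : ℕ → XX m := TopologicalSpace.denseSeq (XX m)

theorem isOpen_Cl (x : XX m) : IsOpen {x' | Cl x x'} := by
  have h1 : IsOpen {x' : XX m | x'.2 < 2 * x.2} := isOpen_lt (by fun_prop) (by fun_prop)
  have h2 : IsOpen {x' : XX m | x.2 < 2 * x'.2} := isOpen_lt (by fun_prop) (by fun_prop)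
  have h3 : IsOpen {x' : XX m | ∑ i, (x.1 i - x'.1 i) ^ 2 < x.2} :=
    isOpen_lt (by fun_prop) (by fun_prop)
  exact h1.inter (h2.inter h3)

theorem meas_Cl (x' : XX m) : MeasurableSet {x | 0 < x.2 → Cl x x'} := by
  have e : {x : XX m | 0 < x.2 → Cl x x'} = {x : XX m | 0 < x.2}ᶜ ∪ {x | Cl x x'} := by
    ext x
    change (0 < x.2 → Cl x x') ↔ (¬ (0 < x.2) ∨ Cl x x')
    tauto
  rw [e]
  have h1 : IsOpen {x : XX m | 0 < x.2} := isOpen_lt continuous_const continuous_snd
  have h2 : IsOpen {x : XX m | Cl x x'} := by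
    have h1 : IsOpen {x : XX m | x'.2 < 2 * x.2} := isOpen_lt (by fun_prop) (by fun_prop)
    have h2 : IsOpen {x : XX m | x.2 < 2 * x'.2} := isOpen_lt (by fun_prop) (by fun_prop)
    have h3 : IsOpen {x : XX m | ∑ i, (x.1 i - x'.1 i) ^ 2 < x.2} :=
      isOpen_lt (by fun_prop) (by fun_prop)
    exact h1.inter (h2.inter h3)
  exact h1.measurableSet.compl.union h2.measurableSet

theorem exists_sel (x : XX m) : ∃ k, 0 < x.2 → Cl x (dn m k) := by
  by_cases hx : 0 < x.2
  · have h1 : x ∈ {x' | Cl x x'} := by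
      refine ⟨by linarith, by linarith, ?_⟩
      simp [hx]
    obtain ⟨y, hy, k, hk⟩ := (TopologicalSpace.denseRange_denseSeq (XX m)).inter_open_nonempty _
      (isOpen_Cl x) ⟨x, h1⟩
    refine ⟨k, fun _ => ?_⟩
    unfold dn
    rw [hk]
    exact hy
  · exact ⟨0, fun h => absurd h hx⟩

open Classical in
/-- the chosen neighbour -/
noncomputable def sel (x : XX m) : ℕ := Nat.find (exists_sel x)

open Classical in
theorem sel_spec {x : XX m} (hx : 0 < x.2) : Cl x (dn m (sel x)) := Nat.find_spec (exists_sel x) hx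

open Classical in
theorem sel_meas : Measurable (sel : XX m → ℕ) := by
  unfold sel
  exact measurable_find exists_sel fun k => meas_Cl (dn m k)

/-! ### the operator -/

/-- the operator -/
noncomputable def GG (L : ℕ) (P : ℕ → V (m + 1) → ℂ) (z : V (m + 1)) : ℂ :=
  hh z ^ L / cL m L * ∫ x, KK L z x * P (sel x) z ∂(mu m)

theorem hh_diff : DifferentiableOn ℂ (hh : V (m + 1) → ℂ) (ball 0 1) := by
  unfold hh
  have h0 : ∀ i : Fin (m + 1), Differentiable ℂ (fun z : V (m + 1) => z i) := fun i =>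
    (EuclideanSpace.proj i : V (m + 1) →L[ℂ] ℂ).differentiable
  refine div_on ?_ ?_ ?_
  · refine (differentiableOn_const _).fun_sub (DifferentiableOn.fun_sum fun i _ => ?_)
    exact ((h0 i).fun_pow 2).differentiableOn
  · exact (((differentiable_const _).fun_sub (h0 0)).fun_pow 2).differentiableOn
  · intro z hz
    rw [mem_ball_zero_iff] at hz
    exact pow_ne_zero _ (u_ne hz)

theorem yy_diff (i : Fin m) : DifferentiableOn ℂ (fun z : V (m + 1) => yy z i) (ball 0 1) := by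
  unfold yy
  have h0 : ∀ i : Fin (m + 1), Differentiable ℂ (fun z : V (m + 1) => z i) := fun i =>
    (EuclideanSpace.proj i : V (m + 1) →L[ℂ] ℂ).differentiable
  refine div_on (h0 _).differentiableOn
    ((differentiable_const _).fun_sub (h0 0)).differentiableOn ?_
  intro z hz
  rw [mem_ball_zero_iff] at hz
  exact u_ne hz

theorem rr_cont : ContinuousOn (rr : V (m + 1) → ℝ) (ball 0 1) := by
  unfold rr
  refine ContinuousOn.div (by fun_prop) ?_ ?_
  · have : Continuous (fun z : V (m + 1) => ‖1 - z 0‖ ^ 2) := by fun_prop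
    exact this.continuousOn
  · intro z hz
    rw [mem_ball_zero_iff] at hz
    have := norm_ne_zero_iff.2 (u_ne hz)
    positivity

theorem PP_diff (x : XX m) : DifferentiableOn ℂ (fun z : V (m + 1) => PP z x) (ball 0 1) := by
  unfold PP Ph
  refine (hh_diff.add (differentiableOn_const _)).add (DifferentiableOn.fun_sum fun i _ => ?_)
  exact ((yy_diff i).sub (differentiableOn_const _)).pow 2

/-- local lower bound for the denominator -/
theorem PP_loc {z z0 : V (m + 1)} (hz : ‖z‖ < 1) (h1 : rr z0 / 2 < rr z)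
    (h2 : ∑ i, ‖yy z i - yy z0 i‖ ^ 2 < rr z0 / 4) {x : XX m} (hx : 0 < x.2) :
    (rr z0 / 2 + x.2 + ∑ i, ((yy z0 i).re - x.1 i) ^ 2) / 2 ≤ ‖PP z x‖ := by
  refine le_trans ?_ (PP_re_le hz x)
  have h3 : ∑ i, ((yy z0 i).re - x.1 i) ^ 2 ≤ 2 * ∑ i, ‖yy z i - x.1 i‖ ^ 2 +
      2 * ∑ i, ‖yy z i - yy z0 i‖ ^ 2 := by
    rw [Finset.mul_sum, Finset.mul_sum, ← Finset.sum_add_distrib]
    refine Finset.sum_le_sum fun i _ => ?_
    have h4 : ((yy z0 i).re - x.1 i) ^ 2 ≤ ‖yy z0 i - x.1 i‖ ^ 2 := by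
      rw [← Complex.normSq_eq_norm_sq, Complex.normSq_apply]
      simp
      nlinarith [sq_nonneg (yy z0 i).im]
    have h5 : ‖yy z0 i - x.1 i‖ ≤ ‖yy z i - x.1 i‖ + ‖yy z i - yy z0 i‖ := by
      calc ‖yy z0 i - x.1 i‖ = ‖(yy z i - x.1 i) - (yy z i - yy z0 i)‖ := by congr 1; ring
        _ ≤ _ := norm_sub_le _ _
    have h6 := norm_nonneg (yy z0 i - x.1 i)
    nlinarith [sq_nonneg (‖yy z i - x.1 i‖ - ‖yy z i - yy z0 i‖)]
  linarith

theorem GG_diff {L : ℕ} (hL : m < 2 * L) {P : ℕ → V (m + 1) → ℂ} {B : ℝ}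
    (hP : ∀ k, DifferentiableOn ℂ (P k) (ball 0 1)) (hB : ∀ k, ∀ z ∈ ball (0 : V (m + 1)) 1,
      ‖P k z‖ ≤ B) : DifferentiableOn ℂ (GG L P) (ball 0 1) := by
  unfold GG
  refine DifferentiableOn.fun_mul (div_on (hh_diff.fun_pow L) (differentiableOn_const _) ?_) ?_
  · intro z _
    have := cL_pos hL
    exact_mod_cast this.ne'
  intro z0 hz0
  have hz0' : ‖z0‖ < 1 := by simpa using hz0
  have hr0 := rr_pos hz0'
  set O : Set (V (m + 1)) := ball 0 1 ∩ {z | rr z0 / 2 < rr z ∧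
    ∑ i, ‖yy z i - yy z0 i‖ ^ 2 < rr z0 / 4} with hO
  have hOo : IsOpen O := by
    have h1 : ContinuousOn (fun z : V (m + 1) => (rr z, ∑ i, ‖yy z i - yy z0 i‖ ^ 2)) (ball 0 1) := by
      refine rr_cont.prodMk (continuousOn_finsetSum _ fun i _ => ?_)
      exact (((yy_diff i).continuousOn.sub continuousOn_const).norm).pow 2
    have h2 : IsOpen {q : ℝ × ℝ | rr z0 / 2 < q.1 ∧ q.2 < rr z0 / 4} :=
      (isOpen_lt continuous_const continuous_fst).inter
        (isOpen_lt continuous_snd continuous_const)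
    exact h1.isOpen_inter_preimage isOpen_ball h2
  have hz0O : z0 ∈ O := ⟨hz0, by change _ ∧ _; constructor <;> simp <;> linarith⟩
  have hOb : O ⊆ ball 0 1 := inter_subset_left
  have hB0 : 0 ≤ B := (norm_nonneg _).trans (hB 0 z0 hz0)
  set Φ : XX m → V (m + 1) → ℂ := fun x z => if 0 < x.2 then KK L z x * P (sel x) z else 0 with hΦ
  have key := Pool.Agent.HP.differentiableOn_integral (mu m) Φ O hOo ?_ ?_
    (fun x => if 0 < x.2 then 4 ^ L * (x.2 ^ ((L : ℝ) - m / 2 - 1) /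
      (rr z0 / 2 + x.2 + ∑ i, ((yy z0 i).re - x.1 i) ^ 2) ^ (2 * L)) * B else 0) ?_ ?_
  · have e : (fun z => ∫ x, KK L z x * P (sel x) z ∂(mu m)) = fun z => ∫ x, Φ x z ∂(mu m) := by
      funext z
      refine integral_congr_ae ?_
      filter_upwards [mu_pos] with x hx
      rw [hΦ]
      simp [hx]
    rw [e]
    exact ((key z0 hz0O).differentiableAt (hOo.mem_nhds hz0O)).differentiableWithinAt
  · intro z hz
    have hm : Measurable (fun x : XX m => KK L z x * P (sel x) z) :=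
      (KK_meas L z).mul ((measurable_from_nat (f := fun k => P k z)).comp sel_meas)
    exact (Measurable.ite (measurableSet_lt measurable_const measurable_snd) hm
      measurable_const).aestronglyMeasurable
  · intro x
    by_cases hx : 0 < x.2
    · simp only [hΦ, hx, if_true]
      refine DifferentiableOn.fun_mul ?_ ((hP _).mono hOb)
      unfold KK
      refine div_on (differentiableOn_const _)
        (((PP_diff x).mono hOb).fun_pow _) ?_
      intro z hz
      have h1 := PP_pos (by simpa using hOb hz) hx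
      exact pow_ne_zero _ (norm_pos_iff.1 h1)
    · simp only [hΦ, hx, if_false]
      exact differentiableOn_const _
  · have h1 := ((ker_real (m := m) hL (half_pos hr0) (fun i => (yy z0 i).re)).1.const_mul
      (4 ^ L)).mul_const B
    refine h1.congr ?_
    filter_upwards [mu_pos] with x hx
    simp [hx]
  · intro x z hz
    by_cases hx : 0 < x.2
    · simp only [hΦ, hx, if_true]
      have hz' : ‖z‖ < 1 := by simpa using hOb hz
      rw [norm_mul, KK_norm L z hx]
      refine mul_le_mul ?_ (hB _ _ (hOb hz)) (norm_nonneg _) (by positivity)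
      have h1 := PP_loc hz' hz.2.1 hz.2.2 hx
      have h2 : 0 ≤ ∑ i, ((yy z0 i).re - x.1 i) ^ 2 := Finset.sum_nonneg fun i _ => sq_nonneg _
      have h3 : 0 < rr z0 / 2 + x.2 + ∑ i, ((yy z0 i).re - x.1 i) ^ 2 := by linarith
      have h4 := PP_pos hz' hx
      have h5 : (rr z0 / 2 + x.2 + ∑ i, ((yy z0 i).re - x.1 i) ^ 2) ^ (2 * L) ≤
          4 ^ L * ‖PP z x‖ ^ (2 * L) := by
        calc _ ≤ (2 * ‖PP z x‖) ^ (2 * L) := pow_le_pow_left₀ h3.le (by linarith) _
          _ = 4 ^ L * ‖PP z x‖ ^ (2 * L) := by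
              rw [mul_pow, pow_mul (2:ℝ)]
              norm_num
      rw [← mul_div_assoc, div_le_div_iff₀ (by positivity) (by positivity)]
      have h9 : 0 ≤ x.2 ^ ((L : ℝ) - m / 2 - 1) := by positivity
      calc _ ≤ x.2 ^ ((L : ℝ) - m / 2 - 1) * (4 ^ L * ‖PP z x‖ ^ (2 * L)) :=
            mul_le_mul_of_nonneg_left h5 h9
        _ = _ := by ring
    · simp [hΦ, hx]

theorem meas_KP (L : ℕ) (z : V (m + 1)) (P : ℕ → ℂ) :
    AEStronglyMeasurable (fun x : XX m => KK L z x * P (sel x)) (mu m) :=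
  ((KK_meas L z).mul ((measurable_from_nat (f := P)).comp sel_meas)).aestronglyMeasurable

theorem int_KP {L : ℕ} (hL : m < 2 * L) {z : V (m + 1)} (hz : ‖z‖ < 1) {P : ℕ → ℂ} {B : ℝ}
    (hB : ∀ k, ‖P k‖ ≤ B) : Integrable (fun x : XX m => KK L z x * P (sel x)) (mu m) := by
  refine Integrable.mono' ((KK_int hL hz).1.norm.mul_const B) (meas_KP L z P)
    (Eventually.of_forall fun x => ?_)
  rw [norm_mul]
  exact mul_le_mul_of_nonneg_left (hB _) (norm_nonneg _)

theorem GG_bound {L : ℕ} (hL : m < 2 * L) {P : ℕ → V (m + 1) → ℂ} {B : ℝ}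
    {z : V (m + 1)} (hz : ‖z‖ < 1) (hB : ∀ k, ‖P k z‖ ≤ B) : ‖GG L P z‖ ≤ 9 ^ L * B := by
  have hB0 : 0 ≤ B := (norm_nonneg _).trans (hB 0)
  have hc := cL_pos hL
  have h1 : ‖∫ x, KK L z x * P (sel x) z ∂(mu m)‖ ≤ (∫ x, ‖KK L z x‖ ∂(mu m)) * B := by
    refine (norm_integral_le_integral_norm _).trans ?_
    rw [← integral_mul_const]
    refine integral_mono (int_KP hL hz (P := fun k => P k z) hB).norm
      ((KK_int hL hz).1.norm.mul_const B) fun x => ?_
    dsimp only
    rw [norm_mul]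
    exact mul_le_mul_of_nonneg_left (hB _) (norm_nonneg _)
  unfold GG
  rw [norm_mul, norm_div, norm_pow, Complex.norm_real, Real.norm_of_nonneg hc.le]
  calc _ ≤ ‖hh z‖ ^ L / cL m L * ((∫ x, ‖KK L z x‖ ∂(mu m)) * B) :=
        mul_le_mul_of_nonneg_left h1 (by positivity)
    _ = (‖hh z‖ ^ L * ∫ x, ‖KK L z x‖ ∂(mu m)) / cL m L * B := by ring
    _ ≤ (9 ^ L * cL m L) / cL m L * B := by
        have := KK_norm_int hL hz
        exact mul_le_mul_of_nonneg_right (div_le_div_of_nonneg_right this hc.le) hB0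
    _ = 9 ^ L * B := by field_simp

theorem KK_far {k L' : ℕ} {z : V (m + 1)} (hz : ‖z‖ < 1) {x : XX m} (hx : 0 < x.2)
    {b : ℝ} (hb : ‖hh z‖ * x.2 / ‖PP z x‖ ^ 2 ≤ b) :
    ‖hh z‖ ^ (L' + k) * ‖KK (L' + k) z x‖ ≤ b ^ k * (‖hh z‖ ^ L' * ‖KK L' z x‖) := by
  have h4 := PP_pos hz hx
  have e : ‖hh z‖ ^ (L' + k) * ‖KK (L' + k) z x‖ =
      (‖hh z‖ * x.2 / ‖PP z x‖ ^ 2) ^ k * (‖hh z‖ ^ L' * ‖KK L' z x‖) := by
    rw [KK_norm _ z hx, KK_norm _ z hx]
    have h5 : x.2 ^ (((L' + k : ℕ) : ℝ) - m / 2 - 1) = x.2 ^ k * x.2 ^ ((L' : ℝ) - m / 2 - 1) := by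
      rw [← Real.rpow_natCast x.2 k, ← Real.rpow_add hx]
      congr 1
      push_cast
      ring
    rw [h5, div_pow, mul_pow, ← pow_mul, pow_add, mul_add 2 L' k, pow_add]
    field_simp
  rw [e]
  refine mul_le_mul_of_nonneg_right (pow_le_pow_left₀ (by positivity) hb _) (by positivity)

/-- **the error estimate** -/
theorem GG_err {L' k : ℕ} (hL : m < 2 * L') {N : ℕ} {f : Fin N → V (m + 1) → ℂ}
    {P : Fin N → ℕ → V (m + 1) → ℂ} {B E B' b : ℝ} {z : V (m + 1)} (hz : ‖z‖ < 1)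
    (hB : ∀ j k, ‖P j k z‖ ≤ B) (hE : 0 ≤ E) (hB'0 : 0 ≤ B') (hb : 0 ≤ b)
    (hB' : ∀ k, ‖∑ j, f j z * P j k z - 1‖ ≤ B')
    (hfar : ∀ x : XX m, 0 < x.2 → b < ‖hh z‖ * x.2 / ‖PP z x‖ ^ 2 →
      ‖∑ j, f j z * P j (sel x) z - 1‖ ≤ E) :
    ‖∑ j, f j z * GG (L' + k) (P j) z - 1‖ ≤
      9 ^ (L' + k) * E + b ^ k * 9 ^ L' * B' * (cL m L' / cL m (L' + k)) := by
  have hL2 : m < 2 * (L' + k) := by omega
  have hc := cL_pos hL2
  have hc' := cL_pos hL
  have hhp := hh_pos hz
  have hhn : hh z ^ (L' + k) ≠ 0 := pow_ne_zero _ (norm_pos_iff.1 hhp)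
  have hcn : ((cL m (L' + k) : ℝ) : ℂ) ≠ 0 := by exact_mod_cast hc.ne'
  obtain ⟨hi, he⟩ := KK_int hL2 hz
  have h0 : ∀ j, Integrable (fun x : XX m => KK (L' + k) z x * P j (sel x) z) (mu m) := fun j =>
    int_KP hL2 hz (P := fun k => P j k z) (hB j)
  have e1 : ∑ j, f j z * GG (L' + k) (P j) z - 1 = hh z ^ (L' + k) / cL m (L' + k) *
      ∫ x, KK (L' + k) z x * (∑ j, f j z * P j (sel x) z - 1) ∂(mu m) := by
    have e2 : (fun x : XX m => KK (L' + k) z x * (∑ j, f j z * P j (sel x) z - 1)) =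
        fun x => (∑ j, f j z * (KK (L' + k) z x * P j (sel x) z)) - KK (L' + k) z x := by
      funext x
      rw [mul_sub, mul_one, Finset.mul_sum]
      congr 1
      exact Finset.sum_congr rfl fun j _ => by ring
    rw [e2, integral_sub (integrable_finsetSum _ fun j _ => (h0 j).const_mul _) hi,
      integral_finsetSum _ fun j _ => (h0 j).const_mul _, he]
    simp_rw [integral_const_mul]
    rw [mul_sub, Finset.mul_sum]
    congr 1
    · refine Finset.sum_congr rfl fun j _ => ?_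
      unfold GG
      ring
    · field_simp
  have hsm : AEStronglyMeasurable
      (fun x : XX m => KK (L' + k) z x * (∑ j, f j z * P j (sel x) z - 1)) (mu m) :=
    meas_KP (L' + k) z (fun k => ∑ j, f j z * P j k z - 1)
  have h1 : ‖hh z‖ ^ (L' + k) * ‖∫ x, KK (L' + k) z x * (∑ j, f j z * P j (sel x) z - 1) ∂(mu m)‖ ≤
      9 ^ (L' + k) * cL m (L' + k) * E + b ^ k * B' * (9 ^ L' * cL m L') := by
    calc _ ≤ ‖hh z‖ ^ (L' + k) *
          ∫ x, ‖KK (L' + k) z x * (∑ j, f j z * P j (sel x) z - 1)‖ ∂(mu m) :=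
          mul_le_mul_of_nonneg_left (norm_integral_le_integral_norm _) (by positivity)
      _ = ∫ x, ‖hh z‖ ^ (L' + k) *
          ‖KK (L' + k) z x * (∑ j, f j z * P j (sel x) z - 1)‖ ∂(mu m) := by
          rw [integral_const_mul]
      _ ≤ ∫ x, (‖hh z‖ ^ (L' + k) * ‖KK (L' + k) z x‖ * E +
          b ^ k * (‖hh z‖ ^ L' * ‖KK L' z x‖) * B') ∂(mu m) := by
          refine integral_mono_ae ?_ ?_ ?_
          · exact (int_KP hL2 hz (P := fun k => ∑ j, f j z * P j k z - 1) hB').norm.const_mul _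
          · exact ((hi.norm.const_mul _).mul_const _).add
              ((((KK_int hL hz).1.norm.const_mul _).const_mul _).mul_const _)
          · filter_upwards [mu_pos] with x hx
            rw [norm_mul]
            by_cases hc1 : ‖hh z‖ * x.2 / ‖PP z x‖ ^ 2 ≤ b
            · have h3 := KK_far (k := k) (L' := L') hz hx hc1
              have h4 : 0 ≤ ‖hh z‖ ^ (L' + k) * ‖KK (L' + k) z x‖ * E := by positivity
              calc _ = (‖hh z‖ ^ (L' + k) * ‖KK (L' + k) z x‖) *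
                    ‖∑ j, f j z * P j (sel x) z - 1‖ := by ring
                _ ≤ (b ^ k * (‖hh z‖ ^ L' * ‖KK L' z x‖)) * B' :=
                    mul_le_mul h3 (hB' _) (norm_nonneg _) (by positivity)
                _ ≤ _ := by linarith
            · push Not at hc1
              have h3 := hfar x hx hc1
              have h4 : 0 ≤ b ^ k * (‖hh z‖ ^ L' * ‖KK L' z x‖) * B' := by positivity
              calc _ = (‖hh z‖ ^ (L' + k) * ‖KK (L' + k) z x‖) *
                    ‖∑ j, f j z * P j (sel x) z - 1‖ := by ring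
                _ ≤ (‖hh z‖ ^ (L' + k) * ‖KK (L' + k) z x‖) * E :=
                    mul_le_mul_of_nonneg_left h3 (by positivity)
                _ ≤ _ := by linarith
      _ = (‖hh z‖ ^ (L' + k) * ∫ x, ‖KK (L' + k) z x‖ ∂(mu m)) * E +
          b ^ k * (‖hh z‖ ^ L' * ∫ x, ‖KK L' z x‖ ∂(mu m)) * B' := by
          rw [integral_add ((hi.norm.const_mul _).mul_const _)
            ((((KK_int hL hz).1.norm.const_mul _).const_mul _).mul_const _), integral_mul_const,
            integral_const_mul, integral_mul_const, integral_const_mul, integral_const_mul]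
      _ ≤ (9 ^ (L' + k) * cL m (L' + k)) * E + b ^ k * (9 ^ L' * cL m L') * B' := by
          have h5 := KK_norm_int hL2 hz
          have h6 := KK_norm_int hL hz
          gcongr
      _ = _ := by ring
  rw [e1, norm_mul, norm_div, norm_pow, Complex.norm_real, Real.norm_of_nonneg hc.le]
  calc _ = (‖hh z‖ ^ (L' + k) *
        ‖∫ x, KK (L' + k) z x * (∑ j, f j z * P j (sel x) z - 1) ∂(mu m)‖) / cL m (L' + k) := by
        ring
    _ ≤ (9 ^ (L' + k) * cL m (L' + k) * E + b ^ k * B' * (9 ^ L' * cL m L')) /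
        cL m (L' + k) := by gcongr
    _ = _ := by
        field_simp

/-- comparison of the constants -/
theorem cL_ratio {L' : ℕ} (hL : m + 1 ≤ L') (k : ℕ) : cL m L' ≤ 12 ^ k * cL m (L' + k) := by
  induction k with
  | zero => simp
  | succ k ih =>
    refine ih.trans ?_
    rw [pow_succ, mul_assoc]
    refine mul_le_mul_of_nonneg_left ?_ (by positivity)
    set L := L' + k with hLd
    have hL2 : m + 1 ≤ L := by omega
    have hLm : ((m:ℝ) + 1) ≤ L := by exact_mod_cast hL2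
    have hm0 : (0:ℝ) ≤ m := Nat.cast_nonneg m
    have hpos : (0:ℝ) < (L:ℝ) - m / 2 := by linarith
    have hG : Real.Gamma (((L + 1 : ℕ) : ℝ) - m / 2) =
        ((L:ℝ) - m / 2) * Real.Gamma ((L:ℝ) - m / 2) := by
      rw [← Real.Gamma_add_one hpos.ne']
      congr 1
      push_cast
      ring
    have hf1 : (((L + 1 - 1).factorial : ℕ) : ℝ) = L * ((L - 1).factorial : ℕ) := by
      have : L + 1 - 1 = (L - 1) + 1 := by omega
      rw [this, Nat.factorial_succ]
      push_cast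
      have : (((L - 1 : ℕ) : ℝ) + 1) = L := by
        rw [Nat.cast_sub (by omega)]
        push_cast
        ring
      rw [this]
    have hf2 : (((2 * (L + 1) - 1).factorial : ℕ) : ℝ) =
        (2 * L + 1) * (2 * L) * ((2 * L - 1).factorial : ℕ) := by
      have : 2 * (L + 1) - 1 = (2 * L - 1) + 1 + 1 := by omega
      rw [this, Nat.factorial_succ, Nat.factorial_succ]
      push_cast
      have : (((2 * L - 1 : ℕ) : ℝ)) = 2 * L - 1 := by
        rw [Nat.cast_sub (by omega)]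
        push_cast
        ring
      rw [this]
      ring
    have hΓ := Real.Gamma_pos_of_pos hpos
    have hpi := Real.pi_pos
    have hL0 : (0:ℝ) < L := by linarith
    have hF1 : (0:ℝ) < ((L - 1).factorial : ℕ) := by exact_mod_cast Nat.factorial_pos _
    have hF2 : (0:ℝ) < ((2 * L - 1).factorial : ℕ) := by exact_mod_cast Nat.factorial_pos _
    have key : cL m (L + 1) = cL m L * (((L:ℝ) - m / 2) * L / ((2 * L + 1) * (2 * L))) := by
      unfold cL
      rw [hG, hf1, hf2]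
      field_simp
    have hcp : 0 < cL m L := cL_pos (by omega)
    have : L' + (k + 1) = L + 1 := by omega
    rw [this, key]
    have h7 : 1 ≤ 12 * (((L:ℝ) - m / 2) * L / ((2 * L + 1) * (2 * L))) := by
      rw [← mul_div_assoc, le_div_iff₀ (by positivity)]
      nlinarith
    calc cL m L = cL m L * 1 := by ring
      _ ≤ cL m L * (12 * (((L:ℝ) - m / 2) * L / ((2 * L + 1) * (2 * L)))) :=
          mul_le_mul_of_nonneg_left h7 hcp.le
      _ = _ := by ring

end Pool.Agent.Y263.RB
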