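import Mathlib
import Pool.Agent.W732.Ud.Thin
import Pool.Agent.Y263.RB.Op

/-!
Approximate solutions near totally real balls and complex geodesics.
-/

set_option autoImplicit false

open MeasureTheory Set Filter Topology Complex Metric

namespace Pool.Agent.Y263.RB

open Pool.Agent.W732.Cor (V mv S_mv)
open Pool.Agent.W732.Ud (Datum TT S_thin2)

/-- solutions with small error on `X` and controlled growth, uniformly in the data -/
def Good {m : ℕ} (N : ℕ) (δ : ℝ) (X : Set (V m)) : Prop :=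
  ∀ l : ℕ, ∃ C : ℝ, 1 ≤ C ∧ ∀ k : ℕ, ∀ f : Fin N → V m → ℂ, Datum N δ (ball 0 1) f →
    ∃ g : Fin N → V m → ℂ, (∀ i, DifferentiableOn ℂ (g i) (ball 0 1)) ∧
      (∀ i, ∀ z ∈ ball (0 : V m) 1, ‖g i z‖ ≤ C * 2 ^ k) ∧
      ∀ z ∈ X, ‖∑ i, f i z * g i z - 1‖ ≤ C * (1 / 2) ^ (l * k)

theorem Good.mono {m N : ℕ} {δ : ℝ} {X Y : Set (V m)} (h : Good N δ X) (hY : Y ⊆ X) :
    Good N δ Y := by
  intro l
  obtain ⟨C, hC, hC2⟩ := h l
  refine ⟨C, hC, fun k f hf => ?_⟩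
  obtain ⟨g, h1, h2, h3⟩ := hC2 k f hf
  exact ⟨g, h1, h2, fun z hz => h3 z (hY hz)⟩

theorem thin2 : S_thin2 :=
  Pool.Agent.W930.Ud.main Pool.Agent.W732.Ud.t_pd Pool.Agent.W32.Ud.main

theorem exists_root {a : ℝ} (ha1 : a < 1) (j : ℕ) {c : ℝ} (hc : 1 < c) :
    ∃ t : ℝ, a < t ∧ t < 1 ∧ (1 / t) ^ j ≤ c := by
  have h1 : Tendsto (fun t : ℝ => (1 / t) ^ j) (𝓝[<] 1) (𝓝 ((1 / 1) ^ j)) := by
    refine Tendsto.mono_left ?_ nhdsWithin_le_nhds
    have : ContinuousAt (fun t : ℝ => (1 / t) ^ j) 1 := by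
      refine ContinuousAt.pow (continuousAt_const.div continuousAt_id one_ne_zero) j
    exact this
  rw [div_one, one_pow] at h1
  have h2 : ∀ᶠ t in 𝓝[<] (1:ℝ), (1 / t) ^ j < c := h1.eventually (gt_mem_nhds hc)
  have h3 : ∀ᶠ t in 𝓝[<] (1:ℝ), a < t := nhdsWithin_le_nhds (lt_mem_nhds ha1)
  have h4 : ∀ᶠ t in 𝓝[<] (1:ℝ), t < 1 := eventually_mem_nhdsWithin
  obtain ⟨t, ht1, ht2, ht3⟩ := (h2.and (h3.and h4)).exists
  exact ⟨t, ht2, ht3, ht1.le⟩

theorem sum_bd {m N : ℕ} {f g : Fin N → V m → ℂ} {K : ℝ} {z : V m} (hf : ∀ i, ‖f i z‖ ≤ 1)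
    (hg : ∀ i, ‖g i z‖ ≤ K) : ‖∑ i, f i z * g i z - 1‖ ≤ 1 + N * K := by
  refine (norm_sub_le _ _).trans ?_
  rw [norm_one]
  have h1 : ‖∑ i, f i z * g i z‖ ≤ ∑ i : Fin N, K := by
    refine (norm_sum_le _ _).trans (Finset.sum_le_sum fun i _ => ?_)
    rw [norm_mul]
    calc ‖f i z‖ * ‖g i z‖ ≤ 1 * K := mul_le_mul (hf i) (hg i) (norm_nonneg _) zero_le_one
      _ = K := one_mul K
  rw [Finset.sum_const, Finset.card_univ, Fintype.card_fin, nsmul_eq_mul] at h1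
  linarith

/-- tubes around complex geodesics -/
theorem good_TT {m : ℕ} {p : V m} (hp : ‖p‖ = 1) (N : ℕ) {δ : ℝ} (hδ : 0 < δ) {ρ : ℝ}
    (hρ0 : 0 < ρ) (hρ1 : ρ < 1) : Good N δ (TT p ρ) := by
  intro l
  obtain ⟨ρ', hρ'⟩ : ∃ x : ℝ, x = max ρ (1 / 2) := ⟨_, rfl⟩
  have hρ'0 : 0 < ρ' := by rw [hρ']; exact lt_max_of_lt_right (by norm_num)
  have hρ'1 : ρ' < 1 := by rw [hρ']; exact max_lt hρ1 (by norm_num)
  have hρρ' : ρ ≤ ρ' := by rw [hρ']; exact le_max_left _ _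
  have hρ'2 : 1 / 2 ≤ ρ' := by rw [hρ']; exact le_max_right _ _
  obtain ⟨j, hj⟩ := exists_pow_lt_of_lt_one (show (0:ℝ) < (1 / 2) ^ (l + 1) by positivity) hρ'1
  obtain ⟨t, ht1, ht2, ht3⟩ := exists_root hρ'1 j (c := 2) (by norm_num)
  obtain ⟨C0, hC0, hC⟩ := thin2 m p hp N δ ρ' t hδ hρ'0 ht1 ht2
  have ht0 : 0 < t := hρ'0.trans ht1
  refine ⟨2 * C0 + 1, by linarith, fun k f hf => ?_⟩
  obtain ⟨g, h1, h2, h3⟩ := hC (j * k + 1) (by omega) f hf
  have ht4 : 1 / t ≤ 2 := by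
    rw [div_le_iff₀ ht0]
    linarith
  refine ⟨g, h1, fun i z hz => (h2 i z hz).trans ?_, fun z hz => ?_⟩
  · have h4 : (1 / t) ^ (j * k + 1) ≤ 2 ^ k * 2 := by
      rw [pow_succ, pow_mul]
      exact mul_le_mul (pow_le_pow_left₀ (by positivity) ht3 k) ht4 (by positivity) (by positivity)
    have h5 : (0:ℝ) < 2 ^ k := by positivity
    nlinarith [mul_le_mul_of_nonneg_left h4 hC0]
  · refine (h3 z (Pool.Agent.W337.Ud.Thin3.TT_mono hp hρ0.le hρρ' hz)).trans ?_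
    have h4 : (ρ' / t) ^ (j * k + 1) ≤ (1 / 2) ^ (l * k) := by
      have h5 : ρ' / t ≤ 1 := by rw [div_le_one ht0]; exact ht1.le
      have h6 : (ρ' / t) ^ j ≤ (1 / 2) ^ l := by
        calc (ρ' / t) ^ j = ρ' ^ j * (1 / t) ^ j := by rw [← mul_pow]; ring
          _ ≤ (1 / 2) ^ (l + 1) * 2 := mul_le_mul hj.le ht3 (by positivity) (by positivity)
          _ = (1 / 2) ^ l := by rw [pow_succ]; ring
      calc (ρ' / t) ^ (j * k + 1) ≤ (ρ' / t) ^ (j * k) :=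
            pow_le_pow_of_le_one (by positivity) h5 (Nat.le_succ _)
        _ = ((ρ' / t) ^ j) ^ k := by rw [pow_mul]
        _ ≤ ((1 / 2) ^ l) ^ k := pow_le_pow_left₀ (by positivity) h6 k
        _ = (1 / 2) ^ (l * k) := by rw [pow_mul]
    have h7 : (0:ℝ) < (1 / 2) ^ (l * k) := by positivity
    nlinarith [mul_le_mul_of_nonneg_left h4 hC0]

/-- the neighbourhood of the totally real ball -/
def RR (m : ℕ) (α : ℝ) : Set (V (m + 1)) :=
  {z | ‖z‖ < 1 ∧ ‖1 - ∑ i, z i ^ 2‖ ≤ α * (1 - ‖z‖ ^ 2)}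

theorem RR_hh {m : ℕ} {α : ℝ} {z : V (m + 1)} (hz : z ∈ RR m α) : ‖hh z‖ ≤ α * rr z := by
  have hu : 0 < ‖1 - z 0‖ := norm_pos_iff.2 (u_ne hz.1)
  unfold hh rr
  rw [norm_div, norm_pow, ← mul_div_assoc]
  exact div_le_div_of_nonneg_right hz.2 (by positivity)

theorem sub_TT {m : ℕ} {p : V m} (hp : ‖p‖ = 1) {ρ : ℝ} (hρ : 0 ≤ ρ) (hρ1 : ρ < 1) {w : V m}
    (hw : ‖w‖ ^ 2 ≤ ρ ^ 2) : w ∈ TT p ρ := by
  have h1 : ‖w‖ ≤ ρ := abs_le_of_sq_le_sq' hw hρ |>.2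
  refine ⟨by rw [mem_ball_zero_iff]; linarith, ?_⟩
  have h2 := Pool.Agent.W721.Cor.Mv.norm_dec hp w
  have h3 : 0 ≤ ‖(inner ℂ p w : ℂ)‖ ^ 2 := by positivity
  have h4 : ρ ^ 2 ≤ 1 := by nlinarith
  nlinarith [mul_nonneg h3 (sub_nonneg.2 h4)]

/-- one local solution -/
theorem local_sol {m N : ℕ} {δ ρ t C0 : ℝ} {p : V (m + 1)} (hp : ‖p‖ = 1) (hρ : 0 ≤ ρ)
    (hρ1 : ρ < 1) {M : ℕ} (hM : 0 < M)
    (hC : ∀ M : ℕ, 0 < M → ∀ f : Fin N → V (m + 1) → ℂ, Datum N δ (ball 0 1) f →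
      ∃ g : Fin N → V (m + 1) → ℂ, (∀ i, DifferentiableOn ℂ (g i) (ball 0 1)) ∧
        (∀ i, ∀ z ∈ ball (0 : V (m + 1)) 1, ‖g i z‖ ≤ C0 * (1 / t) ^ M) ∧
        ∀ z ∈ TT p ρ, ‖∑ i, f i z * g i z - 1‖ ≤ C0 * (ρ / t) ^ M)
    {f : Fin N → V (m + 1) → ℂ} (hf : Datum N δ (ball 0 1) f) {x : XX m} (hx : 0 < x.2) :
    ∃ g : Fin N → V (m + 1) → ℂ, (∀ i, DifferentiableOn ℂ (g i) (ball 0 1)) ∧
        (∀ i, ∀ z ∈ ball (0 : V (m + 1)) 1, ‖g i z‖ ≤ C0 * (1 / t) ^ M) ∧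
        ∀ z ∈ ball (0 : V (m + 1)) 1, 1 - ρ ^ 2 ≤ 4 * rr z * x.2 / ‖PP z x‖ ^ 2 →
          ‖∑ i, f i z * g i z - 1‖ ≤ C0 * (ρ / t) ^ M := by
  obtain ⟨ψ, φ, hA, hA2⟩ := exists_aut_x (m := m) hx
  have hD : Datum N δ (ball 0 1) (fun i => f i ∘ φ) :=
    { hol := fun i => (hf.hol i).comp hA.d2 hA.m2
      bd := fun i z hz => hf.bd i _ (hA.m2 hz)
      low := fun z hz => hf.low _ (hA.m2 hz) }
  obtain ⟨g, h1, h2, h3⟩ := hC M hM _ hD
  refine ⟨fun i => g i ∘ ψ, fun i => (h1 i).comp hA.d1 hA.m1, fun i z hz => h2 i _ (hA.m1 hz),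
    fun z hz hσ => ?_⟩
  rw [← hA2 z hz] at hσ
  have h4 := h3 (ψ z) (sub_TT hp hρ hρ1 (by linarith))
  simp only [Function.comp_apply] at h4 ⊢
  rwa [hA.l z hz] at h4

/-- neighbourhoods of the totally real ball -/
theorem good_RR (m N : ℕ) {δ : ℝ} (hδ : 0 < δ) {α : ℝ} (hα : 0 < α) : Good N δ (RR m α) := by
  intro l
  obtain ⟨p, hp⟩ : ∃ p : V (m + 1), ‖p‖ = 1 := ⟨EuclideanSpace.single 0 1, by simp⟩
  obtain ⟨b, hb⟩ : ∃ x : ℝ, x = min ((1 / 2) ^ (5 * l) / 36) α := ⟨_, rfl⟩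
  have hb0 : 0 < b := by rw [hb]; exact lt_min (by positivity) hα
  have hb1 : b ≤ (1 / 2) ^ (5 * l) / 36 := by rw [hb]; exact min_le_left _ _
  have hb2 : b ≤ α := by rw [hb]; exact min_le_right _ _
  obtain ⟨c, hc⟩ : ∃ x : ℝ, x = 2 * b / (25 * α) := ⟨_, rfl⟩
  have hc0 : 0 < c := by rw [hc]; positivity
  have hc1 : c < 1 := by
    rw [hc, div_lt_one (by positivity)]
    linarith
  obtain ⟨ρ, hρ⟩ : ∃ x : ℝ, x = √(1 - c) := ⟨_, rfl⟩
  have hρ2 : ρ ^ 2 = 1 - c := by rw [hρ]; exact Real.sq_sqrt (by linarith)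
  have hρ0 : 0 < ρ := by rw [hρ]; exact Real.sqrt_pos.2 (by linarith)
  have hρ1 : ρ < 1 := by
    rw [hρ, Real.sqrt_lt' one_pos]
    linarith
  obtain ⟨j, hj⟩ := exists_pow_lt_of_lt_one
    (show (0:ℝ) < (1 / 2) ^ (5 * l) / 27 by positivity) hρ1
  obtain ⟨t, ht1', ht2, ht3⟩ := exists_root (a := max ρ (1 / 2))
    (max_lt hρ1 (by norm_num)) j (c := 3) (by norm_num)
  have ht1 : ρ < t := (le_max_left _ _).trans_lt ht1'
  have ht5 : 1 / 2 < t := (le_max_right _ _).trans_lt ht1'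
  have ht0 : 0 < t := hρ0.trans ht1
  have ht4 : 1 / t ≤ 2 := by
    rw [div_le_iff₀ ht0]
    linarith
  obtain ⟨C0, hC0, hC⟩ := thin2 (m + 1) p hp N δ ρ t hδ hρ0 ht1 ht2
  have hcm := cL_pos (m := m) (L := m + 1) (by omega)
  obtain ⟨K, hK⟩ : ∃ x : ℝ, x = 9 ^ (m + 1) * (1 + 2 * N * C0 + 3 * C0) * 2 ^ (4 * l) := ⟨_, rfl⟩
  have hK1 : 1 ≤ K := by
    rw [hK]
    have h1 : (1:ℝ) ≤ 9 ^ (m + 1) := one_le_pow₀ (by norm_num)
    have h2 : (1:ℝ) ≤ 2 ^ (4 * l) := one_le_pow₀ (by norm_num)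
    have h3 : (1:ℝ) ≤ 1 + 2 * N * C0 + 3 * C0 := by
      have : (0:ℝ) ≤ 2 * N * C0 := by positivity
      linarith
    calc (1:ℝ) = 1 * 1 * 1 := by ring
      _ ≤ _ := by gcongr
  refine ⟨K, hK1, fun k f hf => ?_⟩
  obtain ⟨q, hq⟩ : ∃ q : ℕ, q = k / 5 := ⟨_, rfl⟩
  have hq1 : 5 * q ≤ k := by omega
  have hq2 : k ≤ 5 * q + 4 := by omega
  -- local solutions
  have hloc : ∀ n : ℕ, ∃ g : Fin N → V (m + 1) → ℂ,
      (∀ i, DifferentiableOn ℂ (g i) (ball 0 1)) ∧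
      (∀ i, ∀ z ∈ ball (0 : V (m + 1)) 1, ‖g i z‖ ≤ C0 * (1 / t) ^ (j * q + 1)) ∧
      (0 < (dn m n).2 → ∀ z ∈ ball (0 : V (m + 1)) 1,
        1 - ρ ^ 2 ≤ 4 * rr z * (dn m n).2 / ‖PP z (dn m n)‖ ^ 2 →
          ‖∑ i, f i z * g i z - 1‖ ≤ C0 * (ρ / t) ^ (j * q + 1)) := by
    intro n
    by_cases hn : 0 < (dn m n).2
    · obtain ⟨g, h1, h2, h3⟩ := local_sol hp hρ0.le hρ1 (Nat.succ_pos (j * q)) hC hf hn
      exact ⟨g, h1, h2, fun _ => h3⟩
    · refine ⟨fun _ _ => 0, fun i => differentiableOn_const _, fun i z _ => ?_, fun h => absurd h hn⟩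
      rw [norm_zero]
      positivity
  choose P hP1 hP2 hP3 using hloc
  obtain ⟨B, hB⟩ : ∃ x : ℝ, x = C0 * (1 / t) ^ (j * q + 1) := ⟨_, rfl⟩
  have hB0 : 0 ≤ B := by rw [hB]; positivity
  have hL : m < 2 * (m + 1 + q) := by omega
  have hBle : B ≤ 2 * C0 * 3 ^ q := by
    have h4 : (1 / t) ^ (j * q + 1) ≤ 3 ^ q * 2 := by
      rw [pow_succ, pow_mul]
      exact mul_le_mul (pow_le_pow_left₀ (by positivity) ht3 q) ht4 (by positivity) (by positivity)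
    rw [hB]
    nlinarith [mul_le_mul_of_nonneg_left h4 hC0]
  refine ⟨fun i => GG (m + 1 + q) (fun n => P n i), fun i => GG_diff hL (fun n => hP1 n i)
    (fun n z hz => hP2 n i z hz), ?_, ?_⟩
  · intro i z hz
    have hz' : ‖z‖ < 1 := by simpa using hz
    refine (GG_bound hL hz' (B := B) fun n => by rw [hB]; exact hP2 n i z hz).trans ?_
    have h1 : (27:ℝ) ^ q ≤ 2 ^ k := by
      calc (27:ℝ) ^ q ≤ 32 ^ q := pow_le_pow_left₀ (by norm_num) (by norm_num) q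
        _ = 2 ^ (5 * q) := by rw [pow_mul]; norm_num
        _ ≤ 2 ^ k := pow_le_pow_right₀ (by norm_num) hq1
    have h2 : (1:ℝ) ≤ 2 ^ (4 * l) := one_le_pow₀ (by norm_num)
    calc (9:ℝ) ^ (m + 1 + q) * B ≤ 9 ^ (m + 1 + q) * (2 * C0 * 3 ^ q) := by gcongr
      _ = 9 ^ (m + 1) * (2 * C0) * 1 * 27 ^ q := by
          rw [pow_add, show (27:ℝ) = 9 * 3 by norm_num, mul_pow]
          ring
      _ ≤ 9 ^ (m + 1) * (1 + 2 * N * C0 + 3 * C0) * 2 ^ (4 * l) * 2 ^ k := by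
          gcongr
          have : (0:ℝ) ≤ 2 * N * C0 := by positivity
          linarith
      _ = K * 2 ^ k := by rw [hK]
  · intro z hz
    have hz' : ‖z‖ < 1 := hz.1
    have hzb : z ∈ ball (0 : V (m + 1)) 1 := by simpa using hz'
    have hhr := RR_hh hz
    have hrp := rr_pos hz'
    obtain ⟨E, hE⟩ : ∃ x : ℝ, x = C0 * (ρ / t) ^ (j * q + 1) := ⟨_, rfl⟩
    have hE0 : 0 ≤ E := by rw [hE]; positivity
    have key := GG_err (k := q) (L' := m + 1) (m := m) (by omega) (N := N) (f := f)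
      (P := fun i n => P n i) (B := B) (E := E) (B' := 1 + N * B) (b := b) hz'
      (fun i n => by rw [hB]; exact hP2 n i z hzb) hE0 (by positivity) hb0.le
      (fun n => sum_bd (f := f) (g := P n) (fun i => hf.bd i z hzb)
        (fun i => by rw [hB]; exact hP2 n i z hzb)) ?_
    · refine key.trans ?_
      have hEle : E ≤ C0 * ((1 / 2) ^ (5 * l) / 9) ^ q := by
        have h5 : ρ / t ≤ 1 := by rw [div_le_one ht0]; exact ht1.le
        have h6 : (ρ / t) ^ j ≤ (1 / 2) ^ (5 * l) / 9 := by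
          calc (ρ / t) ^ j = ρ ^ j * (1 / t) ^ j := by rw [← mul_pow]; ring
            _ ≤ (1 / 2) ^ (5 * l) / 27 * 3 :=
                mul_le_mul hj.le ht3 (by positivity) (by positivity)
            _ = (1 / 2) ^ (5 * l) / 9 := by ring
        rw [hE]
        refine mul_le_mul_of_nonneg_left ?_ hC0
        calc (ρ / t) ^ (j * q + 1) ≤ (ρ / t) ^ (j * q) :=
              pow_le_pow_of_le_one (by positivity) h5 (Nat.le_succ _)
          _ = ((ρ / t) ^ j) ^ q := by rw [pow_mul]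
          _ ≤ _ := pow_le_pow_left₀ (by positivity) h6 q
      have hratio : cL m (m + 1) / cL m (m + 1 + q) ≤ 12 ^ q := by
        have h7 := cL_pos (m := m) (L := m + 1 + q) hL
        rw [div_le_iff₀ h7]
        exact cL_ratio le_rfl q
      have hhalf : (((1:ℝ) / 2) ^ (5 * l)) ^ q ≤ 2 ^ (4 * l) * (1 / 2) ^ (l * k) := by
        have h8 : l * k ≤ 5 * l * q + 4 * l := by nlinarith
        calc (((1:ℝ) / 2) ^ (5 * l)) ^ q = 2 ^ (4 * l) * (1 / 2) ^ (5 * l * q + 4 * l) := by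
              rw [pow_add, ← pow_mul (1 / 2 : ℝ) (5 * l) q]
              have : (2:ℝ) ^ (4 * l) * ((1 / 2) ^ (5 * l * q) * (1 / 2) ^ (4 * l)) =
                (1 / 2) ^ (5 * l * q) * (2 * (1 / 2)) ^ (4 * l) := by
                rw [mul_pow]; ring
              rw [this]
              norm_num
          _ ≤ 2 ^ (4 * l) * (1 / 2) ^ (l * k) := by
              refine mul_le_mul_of_nonneg_left ?_ (by positivity)
              exact pow_le_pow_of_le_one (by norm_num) (by norm_num) h8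
      have hnear : (9:ℝ) ^ (m + 1 + q) * E ≤ 9 ^ (m + 1) * C0 * ((1 / 2) ^ (5 * l)) ^ q := by
        calc (9:ℝ) ^ (m + 1 + q) * E ≤ 9 ^ (m + 1 + q) * (C0 * ((1 / 2) ^ (5 * l) / 9) ^ q) := by
              gcongr
          _ = _ := by
              rw [pow_add, div_pow]
              field_simp
      have hfar : b ^ q * 9 ^ (m + 1) * (1 + N * B) * (cL m (m + 1) / cL m (m + 1 + q)) ≤
          9 ^ (m + 1) * (1 + 2 * N * C0) * ((1 / 2) ^ (5 * l)) ^ q := by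
        have h9 : 1 + N * B ≤ (1 + 2 * N * C0) * 3 ^ q := by
          have h10 : (1:ℝ) ≤ 3 ^ q := one_le_pow₀ (by norm_num)
          have h11 : (N:ℝ) * B ≤ N * (2 * C0 * 3 ^ q) := by gcongr
          nlinarith
        calc b ^ q * 9 ^ (m + 1) * (1 + N * B) * (cL m (m + 1) / cL m (m + 1 + q))
            ≤ ((1 / 2) ^ (5 * l) / 36) ^ q * 9 ^ (m + 1) * ((1 + 2 * N * C0) * 3 ^ q) * 12 ^ q := by
              have h12 := cL_pos (m := m) (L := m + 1 + q) hL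
              gcongr
          _ = 9 ^ (m + 1) * (1 + 2 * N * C0) * ((1 / 2) ^ (5 * l)) ^ q := by
              rw [div_pow, show (36:ℝ) = 3 * 12 by norm_num, mul_pow]
              field_simp
      calc _ ≤ 9 ^ (m + 1) * C0 * ((1 / 2) ^ (5 * l)) ^ q +
            9 ^ (m + 1) * (1 + 2 * N * C0) * ((1 / 2) ^ (5 * l)) ^ q := add_le_add hnear hfar
        _ = 9 ^ (m + 1) * (1 + 2 * N * C0 + C0) * ((1 / 2) ^ (5 * l)) ^ q := by ring
        _ ≤ 9 ^ (m + 1) * (1 + 2 * N * C0 + 3 * C0) * (2 ^ (4 * l) * (1 / 2) ^ (l * k)) := by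
            gcongr
            linarith
        _ = K * (1 / 2) ^ (l * k) := by rw [hK]; ring
    · intro x hx hbx
      have hcl := sel_spec hx
      have h1 := PP_Cl hz' hx hcl
      have h2 : 0 < (dn m (sel x)).2 := by
        have := hcl.2.1
        linarith
      rw [hE]
      refine hP3 (sel x) h2 z hzb ?_
      have h3 := PP_pos hz' hx
      have h4 := PP_pos hz' h2
      rw [hρ2, hc, le_div_iff₀ (by positivity)]
      rw [lt_div_iff₀ (by positivity)] at hbx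
      have h5 : b * ‖PP z x‖ ^ 2 < α * rr z * x.2 := by
        calc b * ‖PP z x‖ ^ 2 < ‖hh z‖ * x.2 := hbx
          _ ≤ α * rr z * x.2 := mul_le_mul_of_nonneg_right hhr hx.le
      have h6 : ‖PP z (dn m (sel x))‖ ^ 2 ≤ 25 * ‖PP z x‖ ^ 2 := by
        calc ‖PP z (dn m (sel x))‖ ^ 2 ≤ (5 * ‖PP z x‖) ^ 2 := pow_le_pow_left₀ h4.le h1 2
          _ = 25 * ‖PP z x‖ ^ 2 := by ring
      have h7 : x.2 < 2 * (dn m (sel x)).2 := hcl.2.1
      have h8 : (1 - (1 - 2 * b / (25 * α))) * ‖PP z (dn m (sel x))‖ ^ 2 ≤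
          2 * b / α * ‖PP z x‖ ^ 2 := by
        calc _ = 2 * b / (25 * α) * ‖PP z (dn m (sel x))‖ ^ 2 := by ring
          _ ≤ 2 * b / (25 * α) * (25 * ‖PP z x‖ ^ 2) :=
              mul_le_mul_of_nonneg_left h6 (by positivity)
          _ = _ := by field_simp
      refine h8.trans ?_
      have h9 : 2 * b / α * ‖PP z x‖ ^ 2 = 2 * (b * ‖PP z x‖ ^ 2) / α := by ring
      rw [h9, div_le_iff₀ hα]
      have h10 : rr z * x.2 ≤ rr z * (2 * (dn m (sel x)).2) :=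
        mul_le_mul_of_nonneg_left h7.le hrp.le
      nlinarith [mul_le_mul_of_nonneg_left h10 hα.le]

/-- unions of two sets -/
theorem Good.union {m N : ℕ} {δ : ℝ} {X Y : Set (V m)} (hX : X ⊆ ball 0 1) (hY : Y ⊆ ball 0 1)
    (h1 : Good N δ X) (h2 : Good N δ Y) : Good N δ (X ∪ Y) := by
  intro l
  obtain ⟨C1, hC1, H1⟩ := h1 (2 * l + 1)
  obtain ⟨C2, hC2, H2⟩ := h2 (2 * l + 1)
  obtain ⟨C, hC⟩ : ∃ x : ℝ, x = C1 + C2 := ⟨_, rfl⟩
  obtain ⟨K, hK⟩ : ∃ x : ℝ, x = (C + C * (1 + N * C)) * 2 ^ l := ⟨_, rfl⟩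
  have hC0 : 1 ≤ C := by linarith
  have hNC : 0 ≤ (N:ℝ) * C := by positivity
  have h2l : (1:ℝ) ≤ 2 ^ l := one_le_pow₀ (by norm_num)
  refine ⟨K, ?_, fun k f hf => ?_⟩
  · rw [hK]
    have : 1 ≤ C + C * (1 + N * C) := by nlinarith
    calc (1:ℝ) = 1 * 1 := by ring
      _ ≤ _ := mul_le_mul this h2l zero_le_one (by linarith)
  · obtain ⟨q, hq⟩ : ∃ q : ℕ, q = k / 2 := ⟨_, rfl⟩
    have hq1 : 2 * q ≤ k := by omega
    have hq2 : k ≤ 2 * q + 1 := by omega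
    obtain ⟨g1, a1, a2, a3⟩ := H1 q f hf
    obtain ⟨g2, b1, b2, b3⟩ := H2 q f hf
    have h2q : (0:ℝ) < 2 ^ q := by positivity
    have h2q1 : (1:ℝ) ≤ 2 ^ q := one_le_pow₀ (by norm_num)
    have ha2 : ∀ i, ∀ z ∈ ball (0 : V m) 1, ‖g1 i z‖ ≤ C * 2 ^ q := fun i z hz =>
      (a2 i z hz).trans (by gcongr; linarith)
    have hb2 : ∀ i, ∀ z ∈ ball (0 : V m) 1, ‖g2 i z‖ ≤ C * 2 ^ q := fun i z hz =>
      (b2 i z hz).trans (by gcongr; linarith)
    have e1 : ∀ z ∈ ball (0 : V m) 1, ‖1 - ∑ i, f i z * g1 i z‖ ≤ (1 + N * C) * 2 ^ q := by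
      intro z hz
      rw [norm_sub_rev]
      refine (sum_bd (fun i => hf.bd i z hz) (fun i => ha2 i z hz)).trans ?_
      nlinarith
    have e2 : ∀ z ∈ ball (0 : V m) 1, ‖1 - ∑ i, f i z * g2 i z‖ ≤ (1 + N * C) * 2 ^ q := by
      intro z hz
      rw [norm_sub_rev]
      refine (sum_bd (fun i => hf.bd i z hz) (fun i => hb2 i z hz)).trans ?_
      nlinarith
    refine ⟨fun i z => g1 i z + g2 i z * (1 - ∑ k, f k z * g1 k z), ?_, ?_, ?_⟩
    · intro i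
      refine (a1 i).add ((b1 i).mul ((differentiableOn_const 1).sub ?_))
      exact DifferentiableOn.fun_sum fun k _ => (hf.hol k).mul (a1 k)
    · intro i z hz
      calc ‖g1 i z + g2 i z * (1 - ∑ k, f k z * g1 k z)‖
          ≤ C * 2 ^ q + C * 2 ^ q * ((1 + N * C) * 2 ^ q) := by
            refine (norm_add_le _ _).trans (add_le_add (ha2 i z hz) ?_)
            rw [norm_mul]
            exact mul_le_mul (hb2 i z hz) (e1 z hz) (norm_nonneg _) (by positivity)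
        _ ≤ C * (2 ^ q * 2 ^ q) + C * 2 ^ q * ((1 + N * C) * 2 ^ q) := by
            have : (2:ℝ) ^ q ≤ 2 ^ q * 2 ^ q := by nlinarith
            gcongr
        _ = (C + C * (1 + N * C)) * 1 * 2 ^ (2 * q) := by
            rw [two_mul q, pow_add]; ring
        _ ≤ (C + C * (1 + N * C)) * 2 ^ l * 2 ^ k := by
            have : (2:ℝ) ^ (2 * q) ≤ 2 ^ k := pow_le_pow_right₀ (by norm_num) hq1
            gcongr
        _ = K * 2 ^ k := by rw [hK]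
    · have hsum : ∀ z, ∑ i, f i z * (g1 i z + g2 i z * (1 - ∑ k, f k z * g1 k z)) - 1 =
          -((1 - ∑ i, f i z * g1 i z) * (1 - ∑ i, f i z * g2 i z)) := by
        intro z
        have h1 : ∑ i, f i z * (g1 i z + g2 i z * (1 - ∑ k, f k z * g1 k z)) =
            ∑ i, f i z * g1 i z + (∑ i, f i z * g2 i z) * (1 - ∑ k, f k z * g1 k z) := by
          rw [Finset.sum_mul, ← Finset.sum_add_distrib]
          exact Finset.sum_congr rfl fun i _ => by ring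
        rw [h1]; ring
      have hfin : C * (1 / 2) ^ ((2 * l + 1) * q) * ((1 + N * C) * 2 ^ q) ≤
          K * (1 / 2) ^ (l * k) := by
        have h3 : (1 / 2 : ℝ) ^ ((2 * l + 1) * q) * 2 ^ q = (1 / 2) ^ (2 * l * q) := by
          rw [add_mul, pow_add, one_mul, mul_assoc, ← mul_pow]
          norm_num
        have h4 : (1 / 2 : ℝ) ^ (2 * l * q) ≤ 2 ^ l * (1 / 2) ^ (l * k) := by
          have h8 : l * k ≤ 2 * l * q + l := by nlinarith
          calc (1 / 2 : ℝ) ^ (2 * l * q) = 2 ^ l * (1 / 2) ^ (2 * l * q + l) := by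
                rw [pow_add]
                have : (2:ℝ) ^ l * ((1 / 2) ^ (2 * l * q) * (1 / 2) ^ l) =
                  (1 / 2) ^ (2 * l * q) * (2 * (1 / 2)) ^ l := by
                  rw [mul_pow]; ring
                rw [this]
                norm_num
            _ ≤ _ := by
                refine mul_le_mul_of_nonneg_left ?_ (by positivity)
                exact pow_le_pow_of_le_one (by norm_num) (by norm_num) h8
        calc C * (1 / 2) ^ ((2 * l + 1) * q) * ((1 + N * C) * 2 ^ q)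
            = C * (1 + N * C) * ((1 / 2) ^ ((2 * l + 1) * q) * 2 ^ q) := by ring
          _ ≤ C * (1 + N * C) * (2 ^ l * (1 / 2) ^ (l * k)) := by
              rw [h3]
              gcongr
          _ ≤ (C + C * (1 + N * C)) * (2 ^ l * (1 / 2) ^ (l * k)) := by
              gcongr
              linarith
          _ = K * (1 / 2) ^ (l * k) := by rw [hK]; ring
      intro z hz
      rw [hsum, norm_neg, norm_mul]
      rcases hz with hz | hz
      · have h5 := a3 z hz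
        rw [norm_sub_rev] at h5
        have h6 : ‖1 - ∑ i, f i z * g1 i z‖ ≤ C * (1 / 2) ^ ((2 * l + 1) * q) :=
          h5.trans (by gcongr; linarith)
        exact (mul_le_mul h6 (e2 z (hX hz)) (norm_nonneg _) (by positivity)).trans hfin
      · have h5 := b3 z hz
        rw [norm_sub_rev] at h5
        have h6 : ‖1 - ∑ i, f i z * g2 i z‖ ≤ C * (1 / 2) ^ ((2 * l + 1) * q) :=
          h5.trans (by gcongr; linarith)
        rw [mul_comm]
        exact (mul_le_mul h6 (e1 z (hY hz)) (norm_nonneg _) (by positivity)).trans hfin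

/-- finitely many automorphic images -/
theorem many {m N : ℕ} {δ : ℝ} {X : Set (V m)} (hX : X ⊆ ball 0 1) (hG : Good N δ X) (l : ℕ)
    {ε : ℝ} (hε : 0 < ε) : ∃ C : ℝ, ∀ ψ φ : Fin l → V m → V m, (∀ j, Aut (ψ j) (φ j)) →
      ∀ f : Fin N → V m → ℂ, Datum N δ (ball 0 1) f →
      ∃ g : Fin N → V m → ℂ, (∀ i, DifferentiableOn ℂ (g i) (ball 0 1)) ∧
        (∀ i, ∀ z ∈ ball (0 : V m) 1, ‖g i z‖ ≤ C) ∧
        ∀ j, ∀ z ∈ X, ‖∑ i, f i (ψ j z) * g i (ψ j z) - 1‖ ≤ ε := by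
  classical
  obtain ⟨C0, hC0, hC⟩ := hG (l + 1)
  have hNC : 0 ≤ (N : ℝ) * C0 := by positivity
  obtain ⟨k, hk⟩ := exists_pow_lt_of_lt_one
    (show 0 < ε / (C0 * (1 + N * C0) ^ l) by positivity) (show (1 / 2 : ℝ) < 1 by norm_num)
  obtain ⟨K, hK⟩ : ∃ K : ℝ, K = C0 * 2 ^ k := ⟨_, rfl⟩
  have hK0 : 0 ≤ K := by rw [hK]; positivity
  refine ⟨l * (K * (1 + N * K) ^ l), ?_⟩
  intro ψ φ hψφ f hf
  have hD : ∀ j, Datum N δ (ball 0 1) (fun i => f i ∘ ψ j) := fun j =>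
    { hol := fun i => (hf.hol i).comp (hψφ j).d1 (hψφ j).m1
      bd := fun i z hz => hf.bd i _ ((hψφ j).m1 hz)
      low := fun z hz => hf.low _ ((hψφ j).m1 hz) }
  choose g hg1 hg2 hg3 using fun j => hC k _ (hD j)
  obtain ⟨G, hG1, hG2, hG3⟩ := Pool.Agent.W337.Ud.Thin3.tel (ball (0 : V m) 1) N f hf.hol hf.bd K
    hK0 l (fun j i => g j i ∘ φ j)
    (fun j i => (hg1 j i).comp (hψφ j).d2 (hψφ j).m2)
    (fun j i z hz => by rw [hK]; exact hg2 j i _ ((hψφ j).m2 hz))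
  refine ⟨G, hG1, hG2, ?_⟩
  intro j z hz
  have hzb : z ∈ ball (0 : V m) 1 := hX hz
  have hw : ψ j z ∈ ball (0 : V m) 1 := (hψφ j).m1 hzb
  rw [norm_sub_rev, hG3 _ hw, norm_prod, ← Finset.mul_prod_erase Finset.univ _ (Finset.mem_univ j)]
  have h1 : ‖1 - ∑ i, f i (ψ j z) * (g j i ∘ φ j) (ψ j z)‖ ≤ C0 * (1 / 2) ^ ((l + 1) * k) := by
    rw [norm_sub_rev]
    have h2 := hg3 j z hz
    simp only [Function.comp_apply] at h2 ⊢
    rw [(hψφ j).l z hzb]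
    exact h2
  have h2k : (1:ℝ) ≤ 2 ^ k := one_le_pow₀ (by norm_num)
  have h2 : ∏ x ∈ Finset.univ.erase j, ‖1 - ∑ i, f i (ψ j z) * (g x i ∘ φ x) (ψ j z)‖ ≤
      ((1 + N * C0) * 2 ^ k) ^ l := by
    have h3 : ∀ x ∈ Finset.univ.erase j,
        ‖1 - ∑ i, f i (ψ j z) * (g x i ∘ φ x) (ψ j z)‖ ≤ (1 + N * C0) * 2 ^ k := by
      intro x _
      rw [norm_sub_rev]
      refine (sum_bd (f := f) (g := fun i => g x i ∘ φ x) (z := ψ j z) (fun i => hf.bd i _ hw)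
        (K := C0 * 2 ^ k) (fun i => hg2 x i _ ((hψφ x).m2 hw))).trans ?_
      nlinarith
    have h5 : 1 ≤ (1 + N * C0) * (2:ℝ) ^ k := by
      have : (1 : ℝ) * 1 ≤ (1 + N * C0) * 2 ^ k :=
        mul_le_mul (by linarith) h2k zero_le_one (by positivity)
      linarith
    calc ∏ x ∈ Finset.univ.erase j, ‖1 - ∑ i, f i (ψ j z) * (g x i ∘ φ x) (ψ j z)‖
        ≤ ∏ _x ∈ Finset.univ.erase j, ((1 + N * C0) * 2 ^ k) :=
          Finset.prod_le_prod (fun _ _ => norm_nonneg _) h3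
      _ = ((1 + N * C0) * 2 ^ k) ^ (Finset.univ.erase j).card := by
          rw [Finset.prod_const]
      _ ≤ ((1 + N * C0) * 2 ^ k) ^ l := by
          apply pow_le_pow_right₀ h5
          have h6 := Finset.card_erase_le (s := (Finset.univ : Finset (Fin l))) (a := j)
          rw [Finset.card_univ, Fintype.card_fin] at h6
          exact h6
  refine (mul_le_mul h1 h2 (Finset.prod_nonneg fun _ _ => norm_nonneg _) (by positivity)).trans ?_
  have e1 : C0 * (1 / 2) ^ ((l + 1) * k) * ((1 + N * C0) * 2 ^ k) ^ l =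
      C0 * (1 + N * C0) ^ l * (1 / 2) ^ k := by
    rw [mul_pow, add_mul, pow_add, one_mul, mul_comm l k, pow_mul (1 / 2 : ℝ) k l]
    have : ((1 / 2 : ℝ) ^ k) ^ l * (2 ^ k) ^ l = 1 := by
      rw [← mul_pow, ← mul_pow]
      norm_num
    calc _ = C0 * (1 + N * C0) ^ l * (1 / 2) ^ k * (((1 / 2 : ℝ) ^ k) ^ l * (2 ^ k) ^ l) := by ring
      _ = _ := by rw [this, mul_one]
  rw [e1]
  have h7 : 0 < C0 * (1 + N * C0) ^ l := by positivity
  rw [lt_div_iff₀ h7] at hk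
  linarith

end Pool.Agent.Y263.RB
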