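import Mathlib
import Pool.Agent.Y263.RB.Main

/-!
Neighbourhoods of totally geodesic submanifolds.
-/

set_option autoImplicit false

open MeasureTheory Set Filter Topology Complex Metric

namespace Pool.Agent.Y263.RB

open Pool.Agent.W732.Cor (V mv S_mv)
open Pool.Agent.W732.Ud (Datum TT S_thin2)

/-- the neighbourhood of `M` of radius `r` in the pseudohyperbolic distance -/
def Near {m : ℕ} (r : ℝ) (M : Set (V m)) : Set (V m) :=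
  {z | ‖z‖ < 1 ∧ ∃ x ∈ M, ‖x‖ < 1 ∧
    (1 - r ^ 2) * ‖1 - (inner ℂ x z : ℂ)‖ ^ 2 ≤ (1 - ‖x‖ ^ 2) * (1 - ‖z‖ ^ 2)}

theorem near_RR {m : ℕ} {r : ℝ} (hr0 : 0 ≤ r) (hr : r < 1) :
    Near r {x : V (m + 1) | ∀ i, (x i).im = 0} ⊆ RR m (8 / (1 - r ^ 2)) := by
  rintro z ⟨hz, x, hx, hx1, h⟩
  refine ⟨hz, ?_⟩
  have hr2 : 0 < 1 - r ^ 2 := by nlinarith
  have hxr : ∀ i, ((x i).re : ℂ) = x i := fun i => by
    apply Complex.ext <;> simp [hx i]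
  have hxc : ∀ i, starRingEnd ℂ (x i) = x i := fun i => by
    rw [← hxr i, Complex.conj_ofReal]
  have hin : (inner ℂ x z : ℂ) = ∑ i, x i * z i := by
    rw [PiLp.inner_apply]
    refine Finset.sum_congr rfl fun i _ => ?_
    rw [RCLike.inner_apply, hxc i, mul_comm]
  have hxx : ((‖x‖ ^ 2 : ℝ) : ℂ) = ∑ i, x i ^ 2 := by
    rw [EuclideanSpace.norm_sq_eq]
    push_cast
    refine Finset.sum_congr rfl fun i _ => ?_
    rw [← hxr i, Complex.norm_real, ← Complex.ofReal_pow, ← Complex.ofReal_pow]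
    simp
  have e1 : 1 - ∑ i, z i ^ 2 = 2 * (1 - (inner ℂ x z : ℂ)) - ((1 - ‖x‖ ^ 2 : ℝ) : ℂ) -
      ∑ i, (z i - x i) ^ 2 := by
    rw [hin]
    push_cast
    push_cast at hxx
    rw [hxx, mul_sub, Finset.mul_sum]
    have : ∑ i, (z i - x i) ^ 2 = ∑ i, z i ^ 2 - ∑ i, 2 * (x i * z i) + ∑ i, x i ^ 2 := by
      rw [← Finset.sum_sub_distrib, ← Finset.sum_add_distrib]
      exact Finset.sum_congr rfl fun i _ => by ring
    rw [this]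
    ring
  have e2 : ‖z - x‖ ^ 2 = ‖z‖ ^ 2 - 2 * (inner ℂ x z : ℂ).re + ‖x‖ ^ 2 := by
    rw [norm_sub_sq (𝕜 := ℂ)]
    have : RCLike.re (inner ℂ z x : ℂ) = (inner ℂ x z : ℂ).re := by
      have h1 := inner_re_symm (𝕜 := ℂ) z x
      simpa using h1
    rw [this]
  have e3 : ‖∑ i, (z i - x i) ^ 2‖ ≤ ‖z - x‖ ^ 2 := by
    rw [EuclideanSpace.norm_sq_eq]
    refine (norm_sum_le _ _).trans (le_of_eq ?_)
    exact Finset.sum_congr rfl fun i _ => by rw [norm_pow]; rfl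
  have e4 : 1 - (inner ℂ x z : ℂ).re ≤ ‖1 - (inner ℂ x z : ℂ)‖ := by
    have := Complex.re_le_norm (1 - (inner ℂ x z : ℂ))
    simpa using this
  have hx2 : 0 < 1 - ‖x‖ ^ 2 := by nlinarith [norm_nonneg x]
  have hz2 : 0 < 1 - ‖z‖ ^ 2 := by nlinarith [norm_nonneg z]
  have e5 : ‖1 - ∑ i, z i ^ 2‖ ≤ 4 * ‖1 - (inner ℂ x z : ℂ)‖ := by
    rw [e1]
    calc _ ≤ ‖2 * (1 - (inner ℂ x z : ℂ))‖ + ‖((1 - ‖x‖ ^ 2 : ℝ) : ℂ)‖ +
          ‖∑ i, (z i - x i) ^ 2‖ :=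
          (norm_sub_le _ _).trans (add_le_add (norm_sub_le _ _) le_rfl)
      _ ≤ 2 * ‖1 - (inner ℂ x z : ℂ)‖ + (1 - ‖x‖ ^ 2) + ‖z - x‖ ^ 2 := by
          have h2 : ‖(2:ℂ)‖ = 2 := by simp
          rw [norm_mul, h2, Complex.norm_real, Real.norm_of_nonneg hx2.le]
          linarith
      _ ≤ _ := by nlinarith
  have e6 : 1 - ‖x‖ ^ 2 ≤ 2 * ‖1 - (inner ℂ x z : ℂ)‖ := by
    nlinarith [sq_nonneg ‖z - x‖]
  have hA : 0 < ‖1 - (inner ℂ x z : ℂ)‖ := by linarith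
  have e7 : (1 - r ^ 2) * ‖1 - (inner ℂ x z : ℂ)‖ ≤ 2 * (1 - ‖z‖ ^ 2) := by
    have h1 : (1 - r ^ 2) * ‖1 - (inner ℂ x z : ℂ)‖ * ‖1 - (inner ℂ x z : ℂ)‖ ≤
        2 * (1 - ‖z‖ ^ 2) * ‖1 - (inner ℂ x z : ℂ)‖ := by
      nlinarith [mul_le_mul_of_nonneg_right e6 hz2.le]
    exact le_of_mul_le_mul_right h1 hA
  refine e5.trans ?_
  rw [div_mul_eq_mul_div, le_div_iff₀ hr2]
  linarith

theorem near_TT {m : ℕ} {p : V m} (hp : ‖p‖ = 1) {r : ℝ} :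
    Near r {x : V m | ∃ c : ℂ, x = c • p} ⊆ TT p r := by
  rintro z ⟨hz, x, ⟨c, rfl⟩, hx1, h⟩
  refine ⟨by simpa using hz, ?_⟩
  rw [norm_smul, hp, mul_one] at hx1 h
  rw [inner_smul_left] at h
  set ξ : ℂ := inner ℂ p z with hξ
  have h1 := Pool.Agent.W721.Cor.Mv.lemA (-c) ξ
  have h2 := Pool.Agent.W721.Cor.Mv.norm_dec hp z
  rw [← hξ] at h2
  rw [map_neg, norm_neg] at h1
  have h3 : 1 + -(starRingEnd ℂ c) * ξ = 1 - starRingEnd ℂ c * ξ := by ring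
  rw [h3] at h1
  have hc : 0 < 1 - ‖c‖ ^ 2 := by nlinarith [norm_nonneg c]
  by_cases hr2 : 0 ≤ 1 - r ^ 2
  · have h4 : (1 - ‖c‖ ^ 2) * ((1 - r ^ 2) * (1 - ‖ξ‖ ^ 2)) ≤ (1 - ‖c‖ ^ 2) * (1 - ‖z‖ ^ 2) := by
      nlinarith [mul_nonneg hr2 (sq_nonneg ‖ξ + -c‖)]
    have h5 := le_of_mul_le_mul_left h4 hc
    nlinarith
  · push Not at hr2
    have h6 : ‖ξ‖ < 1 := by
      have := Pool.Agent.W721.Cor.Mv.inner_lt hp (z := z) (by simpa using hz)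
      exact this
    have h7 : 0 ≤ 1 - ‖ξ‖ ^ 2 := by nlinarith [norm_nonneg ξ]
    nlinarith [norm_nonneg z]

/-- the main theorem -/
theorem geodesic (m N l : ℕ) (δ ε r : ℝ) (p : V m) (hp : ‖p‖ = 1) (hδ : 0 < δ) (hε : 0 < ε)
    (hr0 : 0 ≤ r) (hr : r < 1) :
    ∃ C : ℝ, ∀ ψ φ : Fin l → V m → V m, (∀ j, Aut (ψ j) (φ j)) →
      ∀ f : Fin N → V m → ℂ, Datum N δ (ball 0 1) f →
      ∃ g : Fin N → V m → ℂ, (∀ i, DifferentiableOn ℂ (g i) (ball 0 1)) ∧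
        (∀ i, ∀ z ∈ ball (0 : V m) 1, ‖g i z‖ ≤ C) ∧
        ∀ j, ∀ z ∈ Near r {x : V m | ∃ c : ℂ, x = c • p} ∪ Near r {x : V m | ∀ i, (x i).im = 0},
          ‖∑ i, f i (ψ j z) * g i (ψ j z) - 1‖ ≤ ε := by
  rcases m with _ | m
  · exfalso
    have : p = 0 := Subsingleton.elim _ _
    rw [this, norm_zero] at hp
    exact zero_ne_one hp
  · have hr2 : 0 < 1 - r ^ 2 := by nlinarith
    have h1 := good_TT hp N hδ (ρ := max r (1 / 2)) (lt_max_of_lt_right (by norm_num))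
      (max_lt hr (by norm_num))
    have h2 := good_RR m N hδ (α := 8 / (1 - r ^ 2)) (by positivity)
    have s1 : Near r {x : V (m + 1) | ∃ c : ℂ, x = c • p} ⊆ TT p (max r (1 / 2)) :=
      (near_TT hp).trans (Pool.Agent.W337.Ud.Thin3.TT_mono hp hr0 (le_max_left _ _))
    have s2 := near_RR (m := m) hr0 hr
    have b1 : Near r {x : V (m + 1) | ∃ c : ℂ, x = c • p} ⊆ ball 0 1 := fun z hz => by
      simpa using hz.1
    have b2 : Near r {x : V (m + 1) | ∀ i, (x i).im = 0} ⊆ ball 0 1 := fun z hz => by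
      simpa using hz.1
    exact many (union_subset b1 b2) (Good.union b1 b2 (h1.mono s1) (h2.mono s2)) l hε

end Pool.Agent.Y263.RB
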